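import Pool.Agent.Y128.CX.Defs

/-!
# Frobenius elements and their eigenvalues on `M`
-/

namespace Pool.Agent.Y128.CX

open Module TensorProduct Polynomial Pool.Agent.Y128.SJ Pool.Agent.Y128.CC

/-- If an eigenvalue (over the closure: a root of the minimal polynomial) of a positive power of `A`
lies in the field generated by the roots of unity of order `p` over `ℚ`, then its square is a
power of `q`. -/
def CyclotomicEigenvaluesAreTate {k M : Type} [Field k] [CharZero k] [AddCommGroup M] [Module k M]
    (p q : ℕ) (A : Module.End k M) : Prop :=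
  ∀ m : ℕ, 0 < m → ∀ z : AlgebraicClosure k, IsPrimitiveRoot z p → ∀ P : ℚ[X],
    aeval (aeval z P) (minpoly k (A ^ m)) = 0 → ∃ j : ℤ, (aeval z P) ^ 2 = (q : AlgebraicClosure k) ^ j

/-- There is a (Frobenius) element `γ`, of a place over a prime `q` congruent to one modulo `p` with
`q ^ a` elements in the residue field, whose determinant on the eigenspace of `σ` for each `z` is
`D(z)`, where `D` is a polynomial with rational coefficients, the valuations of the `D(w ^ s)`,
`w` a root of unity of order `p` in `ℚ_q`, are `a` times the numbers `h s` (the end points of the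
Newton and of the Hodge polygons of the eigenspaces are the same), and the eigenvalues of the powers
of `γ` on `M` in the field generated by the roots of unity of order `p` are square roots of powers
of `q`. -/
def HasHodgeSumsWithValues {k V M Γ : Type} [Field k] [CharZero k] [AddCommGroup V] [Module k V]
    [AddCommGroup M] [Module k M] [Group Γ] (p : ℕ) (h : ZMod p → ℚ) (ρ : Representation k Γ V)
    (χ : Γ →* k) (σ : Module.End k V) (τ : Representation k Γ M) : Prop :=
  ∃ (q a : ℕ) (_ : Fact q.Prime) (γ : Γ) (D : ℚ[X]) (w : ℚ_[q]), 0 < a ∧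
    χ γ = (q : k) ^ a ∧ IsPrimitiveRoot w p ∧ HasDeterminant p (ρ γ) σ D ∧
    (∀ s : (ZMod p)ˣ, ((aeval (w ^ (s : ZMod p).val) D).valuation : ℚ) = a * h s) ∧
    CyclotomicEigenvaluesAreTate p q (τ γ)

end Pool.Agent.Y128.CX
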