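import Pool.Agent.Y128.CX.Fft

/-!
# Generalised eigenvectors and polynomials which kill a form
-/

set_option linter.unusedSectionVars false

namespace Pool.Agent.Y128.CX

open Module Polynomial Pool.Agent.H204R3.SP Pool.Agent.H204R3.GP Pool.Agent.H204R3.CM
  Pool.Agent.W529.Ta Pool.Agent.W522.U Pool.Agent.TH118.CR Pool.Agent.Y128.CC

noncomputable section

variable {K : Type} [Field K] {X : Type} [AddCommGroup X] [Module K X]
  {κ : Type} [Fintype κ] [DecidableEq κ]

/-- The operator minus a scalar. -/
def UU (κ : Type) [Fintype κ] [DecidableEq κ] (A : Module.End K X) (c : K) :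
    Module.End K (MultilinearMap K (fun _ : κ => X) K) :=
  TT A - algebraMap K (Module.End K (MultilinearMap K (fun _ : κ => X) K)) c

/-- Evaluation at generalised eigenvectors. -/
theorem gen_kill (A : Module.End K X) (α : κ → K) (v : κ → X)
    (hv : ∀ k, v k ∈ Module.End.maxGenEigenspace A (α k)) :
    ∃ D : ℕ, ∀ ψ : MultilinearMap K (fun _ : κ => X) K,
      (((UU κ A (∏ k, α k)) ^ D) ψ) v = 0 := by
  classical
  choose D hD using fun k => Module.End.mem_maxGenEigenspace A (α k) (v k) |>.1 (hv k)
  let N : κ → Module.End K X := fun k => A - α k • (1 : Module.End K X)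
  set U := UU κ A (∏ k, α k) with hU
  have key : ∀ (j : ℕ) (p : κ → ℕ), ∑ k, D k < ∑ k, p k + j →
      ∀ ψ : MultilinearMap K (fun _ : κ => X) K, ((U ^ j) ψ) (fun k => (N k ^ p k) (v k)) = 0 := by
    intro j
    induction j with
    | zero =>
      intro p hp ψ
      rw [pow_zero, Module.End.one_apply]
      obtain ⟨k, hk⟩ : ∃ k, D k < p k := by
        by_contra hcon
        push Not at hcon
        have h1 := Finset.sum_le_sum (s := Finset.univ) (fun k (_ : k ∈ Finset.univ) => hcon k)
        omega
      apply ψ.map_coord_zero k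
      obtain ⟨q, hq⟩ := Nat.exists_eq_add_of_lt hk
      have h1 : p k = (q + 1) + D k := by omega
      rw [h1, pow_add, Module.End.mul_apply]
      have h2 : (N k ^ D k) (v k) = 0 := hD k
      rw [h2, map_zero]
    | succ j ih =>
      intro p hp ψ
      rw [pow_succ', Module.End.mul_apply]
      set φ := (U ^ j) ψ with hφ
      set w : κ → X := fun k => (N k ^ p k) (v k) with hw
      have h1 : ∀ s : Finset κ, s ≠ Finset.univ → φ (s.piecewise w (fun k => N k (w k))) = 0 := by
        intro s hs
        obtain ⟨k, hk⟩ : ∃ k, k ∉ s := by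
          by_contra h
          push Not at h
          exact hs (Finset.eq_univ_iff_forall.2 h)
        have h2 := ih (fun k => if k ∈ s then p k else p k + 1) (by
          have h3 : ∑ k, p k < ∑ k, (if k ∈ s then p k else p k + 1) := by
            refine Finset.sum_lt_sum (fun k _ => ?_) ⟨k, Finset.mem_univ _, ?_⟩
            · split_ifs <;> omega
            · rw [if_neg hk]
              omega
          omega) ψ
        rw [← hφ] at h2
        rw [← h2]
        congr 1
        funext l
        by_cases hl : l ∈ s
        · rw [if_pos hl, Finset.piecewise_eq_of_mem _ _ _ hl]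
        · rw [if_neg hl, Finset.piecewise_eq_of_notMem _ _ _ hl, pow_succ', Module.End.mul_apply]
      have h2 : φ (fun k => A (w k)) = (∏ k, α k) * φ w := by
        have h3 : (fun k => A (w k)) = (fun k => α k • w k) + fun k => N k (w k) := by
          funext k
          simp only [N, Pi.add_apply, LinearMap.sub_apply, LinearMap.smul_apply,
            Module.End.one_apply]
          abel
        rw [h3, MultilinearMap.map_add_univ, Finset.sum_eq_single Finset.univ]
        · rw [Finset.piecewise_univ, MultilinearMap.map_smul_univ, smul_eq_mul]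
        · intro s _ hs
          have h4 : s.piecewise (fun k => α k • w k) (fun k => N k (w k)) =
              s.piecewise (fun k => α k • (s.piecewise w (fun k => N k (w k))) k)
                (s.piecewise w (fun k => N k (w k))) := by
            funext k
            by_cases hk : k ∈ s
            · rw [Finset.piecewise_eq_of_mem _ _ _ hk, Finset.piecewise_eq_of_mem _ _ _ hk,
                Finset.piecewise_eq_of_mem _ _ _ hk]
            · rw [Finset.piecewise_eq_of_notMem _ _ _ hk, Finset.piecewise_eq_of_notMem _ _ _ hk,
                Finset.piecewise_eq_of_notMem _ _ _ hk]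
          rw [h4, MultilinearMap.map_piecewise_smul, h1 s hs, smul_zero]
        · intro h
          exact absurd (Finset.mem_univ _) h
      change (TT A φ - (∏ k, α k) • φ) w = 0
      change φ (fun k => A (w k)) - (∏ k, α k) * φ w = 0
      rw [h2, sub_self]
  refine ⟨∑ k, D k + 1, fun ψ => ?_⟩
  have h1 := key (∑ k, D k + 1) (fun _ => 0) (by
    rw [Finset.sum_const_zero]
    omega) ψ
  simpa using h1

/-- The product of the eigenvalues is a root. -/
theorem root_of_kill (A : Module.End K X) (α : κ → K) (v : κ → X)
    (hv : ∀ k, v k ∈ Module.End.maxGenEigenspace A (α k))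
    {ψ : MultilinearMap K (fun _ : κ => X) K} (h0 : ψ v ≠ 0) {Q : K[X]}
    (hQ : aeval (TT A : Module.End K (MultilinearMap K (fun _ : κ => X) K)) Q ψ = 0) :
    Q.eval (∏ k, α k) = 0 := by
  obtain ⟨D, hD⟩ := gen_kill A α v hv
  by_contra hcon
  have h1 : IsCoprime ((Polynomial.X - C (∏ k, α k) : K[X]) ^ D) Q := by
    refine IsCoprime.pow_left ?_
    rw [(irreducible_X_sub_C (∏ k, α k)).coprime_iff_not_dvd, dvd_iff_isRoot]
    exact hcon
  obtain ⟨a, b, hab⟩ := h1
  apply h0
  set U : Module.End K (MultilinearMap K (fun _ : κ => X) K) := TT A with hU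
  have h2 : aeval U (a * (Polynomial.X - C (∏ k, α k)) ^ D + b * Q) ψ = ψ := by
    rw [hab, map_one, Module.End.one_apply]
  have h3 : aeval U (b * Q) ψ = 0 := by
    rw [map_mul, Module.End.mul_apply, hQ, map_zero]
  have h4 : aeval U (a * (Polynomial.X - C (∏ k, α k)) ^ D) ψ =
      ((UU κ A (∏ k, α k)) ^ D) (aeval U a ψ) := by
    rw [mul_comm, map_mul, Module.End.mul_apply, map_pow, map_sub, aeval_X, aeval_C]
    rfl
  rw [map_add, LinearMap.add_apply, h3, add_zero, h4] at h2
  rw [← h2]
  exact hD _

end

end Pool.Agent.Y128.CX
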