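import Pool.Agent.Y128.CC.Val

/-!
# The differences of the weights vanish
-/

set_option linter.unusedSectionVars false

namespace Pool.Agent.Y128.CX

open Polynomial Pool.Agent.Y128.CC Pool.Agent.Y128.SJ

noncomputable section

theorem sum_hodge' {p q a : ℕ} [hp : Fact p.Prime] [hq : Fact q.Prime] {K : Type} [Field K]
    [CharZero K] {z : K} (hz : IsPrimitiveRoot z p) {w : ℚ_[q]} (hw : IsPrimitiveRoot w p)
    {D : ℚ[X]} {η : ZMod p → ℚ}
    (hval : ∀ s : (ZMod p)ˣ, ((aeval (w ^ (s : ZMod p).val) D).valuation : ℚ) = a * η s)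
    {Q : Type} [Fintype Q] (i : Q → (ZMod p)ˣ) {N : ℕ} {d : ℤ} (hN : 0 < N)
    (h : ∏ x, (aeval (ev z (i x)) D) ^ N = (q : K) ^ d) (s : (ZMod p)ˣ) :
    ((N : ℚ) * a) * ∑ x, η ((i x * s : (ZMod p)ˣ) : ZMod p) = d := by
  have hs : ((s : ZMod p).val).Coprime p := by
    rw [Nat.coprime_comm, Nat.Prime.coprime_iff_not_dvd hp.out]
    intro h1
    have h2 := Nat.le_of_dvd (by
      rw [Nat.pos_iff_ne_zero]
      intro h3
      exact s.ne_zero ((ZMod.val_eq_zero _).1 h3)) h1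
    exact absurd (ZMod.val_lt (s : ZMod p)) (not_lt.2 h2)
  have hws : IsPrimitiveRoot (w ^ (s : ZMod p).val) p := hw.pow_of_coprime _ hs
  have h1 := transfer hz hws D (fun x => ((i x : (ZMod p)ˣ) : ZMod p).val) N ((q : ℚ) ^ d)
    (by rw [map_zpow₀, map_natCast]; exact h)
  have h2 : ∀ x, (w ^ (s : ZMod p).val) ^ ((i x : (ZMod p)ˣ) : ZMod p).val =
      w ^ ((i x * s : (ZMod p)ˣ) : ZMod p).val := by
    intro x
    have h3 := ev_mul hw s (i x)
    rw [mul_comm s] at h3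
    exact h3
  simp only [h2, map_zpow₀, map_natCast] at h1
  have hq0 : (q : ℚ_[q]) ^ d ≠ 0 := zpow_ne_zero _ (Nat.cast_ne_zero.2 hq.out.ne_zero)
  have hne : ∀ x, aeval (w ^ ((i x * s : (ZMod p)ˣ) : ZMod p).val) D ≠ 0 := by
    intro x hx
    apply hq0
    rw [← h1]
    exact Finset.prod_eq_zero (Finset.mem_univ x) (by rw [hx, zero_pow hN.ne'])
  have h3 := congrArg Padic.valuation h1
  rw [val_prod _ _ fun x _ => pow_ne_zero _ (hne x)] at h3
  rw [Padic.valuation_zpow, Padic.valuation_p, mul_one] at h3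
  have h6 : ((∑ x, ((aeval (w ^ ((i x * s : (ZMod p)ˣ) : ZMod p).val) D) ^ N).valuation : ℤ) : ℚ)
      = (d : ℚ) := by rw [h3]
  push_cast at h6
  rw [Finset.mul_sum, ← h6]
  refine Finset.sum_congr rfl fun x _ => ?_
  have h7 := hval (i x * s)
  rw [Units.val_mul] at h7
  rw [Padic.valuation_pow]
  push_cast
  rw [h7]
  ring

/-- Products of determinants with multiplicities. -/
theorem sum_hodge_mult {p q a : ℕ} [hp : Fact p.Prime] [hq : Fact q.Prime] {K : Type} [Field K]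
    [CharZero K] {z : K} (hz : IsPrimitiveRoot z p) {w : ℚ_[q]} (hw : IsPrimitiveRoot w p)
    {D : ℚ[X]} {η : ZMod p → ℚ}
    (hval : ∀ s : (ZMod p)ˣ, ((aeval (w ^ (s : ZMod p).val) D).valuation : ℚ) = a * η s)
    (c : (ZMod p)ˣ → ℕ) {N : ℕ} {d : ℤ} (hN : 0 < N)
    (h : (∏ i, (aeval (ev z i) D) ^ c i) ^ N = (q : K) ^ d) (s : (ZMod p)ˣ) :
    ((N : ℚ) * a) * ∑ i, (c i : ℚ) * η ((i * s : (ZMod p)ˣ) : ZMod p) = d := by
  have h1 := sum_hodge' hz hw hval (Q := Σ i : (ZMod p)ˣ, Fin (c i)) (fun x => x.1) hN (d := d) (by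
    rw [← h, Fintype.prod_sigma, ← Finset.prod_pow]
    refine Finset.prod_congr rfl fun i _ => ?_
    change ∏ _y : Fin (c i), (aeval (ev z i) D) ^ N = _
    rw [Finset.prod_const, Finset.card_univ, Fintype.card_fin, ← pow_mul, ← pow_mul, mul_comm]) s
  rw [← h1, Fintype.sum_sigma]
  congr 1
  refine Finset.sum_congr rfl fun i _ => ?_
  change _ = ∑ _y : Fin (c i), η ((i * s : (ZMod p)ˣ) : ZMod p)
  rw [Finset.sum_const, Finset.card_univ, Fintype.card_fin, nsmul_eq_mul]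

/-- The multiplicities are symmetric. -/
theorem mult_symm {p N M : ℕ} [hp : Fact p.Prime]
    (hslope : (coverRank N M : ℚ) - (-1) ^ N * (N + 1) ≠ 0) {c : (ZMod p)ˣ → ℕ} {C : ℚ}
    (hC : ∀ s : (ZMod p)ˣ, ∑ i, (c i : ℚ) * coverHodge p N M ((i * s : (ZMod p)ˣ) : ZMod p) = C)
    (i : (ZMod p)ˣ) : c i = c (-i) := by
  have hp0 : (p : ℚ) ≠ 0 := Nat.cast_ne_zero.2 hp.out.ne_zero
  set κ : ℚ := (coverRank N M - (-1) ^ N * (N + 1)) / p with hκ
  have hκ0 : κ ≠ 0 := div_ne_zero hslope hp0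
  set C' : ℚ := 2 * C - (∑ i, (c i : ℚ)) * (N * coverRank N M) with hC'
  have h1 : ∀ s : (ZMod p)ˣ, κ * ∑ i, (c i : ℚ) *
      (2 * ((((i * s : (ZMod p)ˣ) : ZMod p).val : ℕ) : ℚ) - p) = C' := by
    intro s
    rw [hC', ← hC s, Finset.mul_sum, Finset.mul_sum, Finset.sum_mul, ← Finset.sum_sub_distrib]
    refine Finset.sum_congr rfl fun i _ => ?_
    have h2 := two_hodge (p := p) N M ((i * s : (ZMod p)ˣ) : ZMod p)
    rw [← hκ] at h2
    linear_combination -(c i : ℚ) * h2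
  have hneg : ∀ x : (ZMod p)ˣ, (((-x : (ZMod p)ˣ) : ZMod p).val : ℚ) = p - ((x : ZMod p).val : ℚ) := by
    intro x
    rw [Units.val_neg, ZMod.neg_val, if_neg x.ne_zero, Nat.cast_sub (ZMod.val_lt (x : ZMod p)).le]
  have h2 : C' + C' = 0 := by
    have h3 : κ * ∑ i, (c i : ℚ) * (2 * ((((i * (-1) : (ZMod p)ˣ) : ZMod p).val : ℕ) : ℚ) - p) =
        -(κ * ∑ i, (c i : ℚ) * (2 * ((((i * 1 : (ZMod p)ˣ) : ZMod p).val : ℕ) : ℚ) - p)) := by
      rw [← mul_neg, ← Finset.sum_neg_distrib]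
      congr 1
      refine Finset.sum_congr rfl fun i _ => ?_
      rw [mul_neg, mul_one, hneg]
      ring
    have h4 := h1 (-1)
    have h5 := h1 1
    rw [h3] at h4
    linarith
  have h3 : C' = 0 := by linarith
  have h4 : ∀ s : (ZMod p)ˣ, ∑ j, (c j : ℤ) *
      (2 * (((j * s : (ZMod p)ˣ) : ZMod p).val : ℤ) - p) = 0 := by
    intro s
    have h5 := (mul_eq_zero.1 ((h1 s).trans h3)).resolve_left hκ0
    exact_mod_cast h5
  have h5 := comb_saw h4 i
  exact_mod_cast h5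

end

end Pool.Agent.Y128.CX
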