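import Pool.Agent.Y128.CX.Defs

/-!
# From the slices to the Tate classes with values
-/

set_option linter.unusedSectionVars false

namespace Pool.Agent.Y128.CX

open Module TensorProduct Polynomial Pool.Agent.Y128.CC Pool.Agent.Y128.SJ

noncomputable section

variable {p N r : ℕ} {k V M Γ : Type} [Field k] [CharZero k] [AddCommGroup V]
  [Module k V] [FiniteDimensional k V] [AddCommGroup M] [Module k M] [Group Γ]
  {ρ : Representation k Γ V} {χ : Γ →* k} {ω : V →ₗ[k] V →ₗ[k] k} {σ : Module.End k V}
  {τ : Representation k Γ M}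

theorem pow_comm' (hc : ∀ s, ρ s * σ = σ * ρ s) (s : Γ) (i : ℕ) (u : V) :
    (σ ^ i) (ρ s u) = ρ s ((σ ^ i) u) := by
  have h1 : Commute (ρ s) σ := hc s
  exact (congrArg (fun f : Module.End k V => f u) (h1.pow_right i)).symm

/-- The products of graph forms are multiplied by a power of the character. -/
theorem gp_sim (h : CyclicModule p N r ρ χ ω σ) {n : ℕ} {φ : MultilinearMap k (fun _ : Fin n => V) k}
    (hφ : φ ∈ graphProducts ω σ n) : ∃ m, n = 2 * m ∧ ∀ s, ∀ v : Fin n → V,
      φ (fun l => ρ s (v l)) = χ s ^ (N * m) * φ v := by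
  obtain ⟨m, e, i, hφ⟩ := hφ
  refine ⟨m, ?_, fun s v => ?_⟩
  · have h1 := Fintype.card_congr e
    rw [Fintype.card_prod, Fintype.card_fin, Fintype.card_fin, Fintype.card_fin] at h1
    omega
  · rw [hφ, hφ]
    have h1 : ∀ l, ω ((σ ^ i l) (ρ s (v (e (l, 0))))) (ρ s (v (e (l, 1)))) =
        χ s ^ N * ω ((σ ^ i l) (v (e (l, 0)))) (v (e (l, 1))) := by
      intro l
      rw [pow_comm' h.cyclic.comm, h.similitude]
    rw [Finset.prod_congr rfl fun l _ => h1 l, Finset.prod_mul_distrib, Finset.prod_const,
      Finset.card_univ, Fintype.card_fin, pow_mul]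

/-- The tensor product of a form and a vector. -/
def ten {n : ℕ} (q : MultilinearMap k (fun _ : Fin n => V) k) (y : M) :
    MultilinearMap k (fun _ : Fin n => V) M :=
  (LinearMap.toSpanSingleton k M y).compMultilinearMap q

theorem ten_apply {n : ℕ} (q : MultilinearMap k (fun _ : Fin n => V) k) (y : M) (v : Fin n → V) :
    ten q y v = q v • y := rfl

theorem msum_apply {n : ℕ} {J : Type} (S : Finset J)
    (F : J → MultilinearMap k (fun _ : Fin n => V) M) (v : Fin n → V) :
    (∑ j ∈ S, F j) v = ∑ j ∈ S, F j v := by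
  classical
  induction S using Finset.induction_on with
  | empty => rfl
  | insert j S hj ih =>
    rw [Finset.sum_insert hj, Finset.sum_insert hj, MultilinearMap.add_apply, ih]

/-- **From the slices to the classes.** -/
theorem of_slices [FiniteDimensional k M] (h : CyclicModule p N r ρ χ ω σ) {n : ℕ}
    {f : MultilinearMap k (fun _ : Fin n => V) M} (hf : IsTateTensorWithValues ρ τ f)
    (hsl : ∀ μ : Dual k M, μ.compMultilinearMap f ∈ Submodule.span k (graphProducts ω σ n)) :
    f ∈ Submodule.span k (graphProductsWithValues N χ ω σ τ n) := by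
  classical
  obtain ⟨P, hP1, hP2, hP3⟩ := exists_linearIndependent k (graphProducts ω σ n)
  have hPfin : Finite P := hP3.finite
  have hPft : Fintype P := Fintype.ofFinite P
  let bM := Module.finBasis k M
  have hmem : ∀ m' : Dual k M, m'.compMultilinearMap f ∈ Submodule.span k (Set.range
      (Subtype.val : P → MultilinearMap k (fun _ : Fin n => V) k)) := by
    intro m'
    rw [Subtype.range_coe, hP2]
    exact hsl m'
  have hcoef : ∀ m' : Dual k M, ∃ c : P → k, m'.compMultilinearMap f = ∑ p, c p • p.1 := by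
    intro m'
    obtain ⟨c, hc⟩ := (Submodule.mem_span_range_iff_exists_fun k).1 (hmem m')
    exact ⟨c, hc.symm⟩
  choose c hc using hcoef
  let y : P → M := fun p => ∑ i, c (bM.coord i) p • bM i
  have hfy : f = ∑ p, ten p.1 (y p) := by
    refine MultilinearMap.ext fun v => ?_
    rw [msum_apply]
    conv_lhs => rw [← bM.sum_repr (f v)]
    have h1 : ∀ i, bM.repr (f v) i = ∑ p : P, c (bM.coord i) p * p.1 v := by
      intro i
      have h2 := congrArg (fun ψ : MultilinearMap k (fun _ : Fin n => V) k => ψ v) (hc (bM.coord i))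
      change bM.coord i (f v) = (∑ p : P, c (bM.coord i) p • p.1) v at h2
      rw [msum_apply] at h2
      exact h2
    have h2 : ∀ p : P, ten p.1 (y p) v = ∑ i, (c (bM.coord i) p * p.1 v) • bM i := by
      intro p
      rw [ten_apply, Finset.smul_sum]
      refine Finset.sum_congr rfl fun i _ => ?_
      rw [smul_smul, mul_comm]
    rw [Finset.sum_congr rfl (fun p _ => h2 p), Finset.sum_comm]
    refine Finset.sum_congr rfl fun i _ => ?_
    rw [h1, Finset.sum_smul]
  -- the coefficients are Tate classes
  obtain ⟨Δf, hΔf, hf⟩ := hf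
  have hy : ∀ (m : ℕ), n = 2 * m → ∀ (p : P), ∀ s ∈ Δf, τ s (y p) = χ s ^ (N * m) • y p := by
    intro m hm p0 s hs
    have hsim : ∀ (p : P) (v : Fin n → V), p.1 (fun l => ρ s (v l)) = χ s ^ (N * m) * p.1 v := by
      intro p v
      obtain ⟨m', hm', h1⟩ := gp_sim h (hP1 p.2)
      have : m' = m := by omega
      subst this
      exact h1 s v
    have h1 : ∀ v : Fin n → V, ∑ p : P, p.1 v • (τ s (y p) - χ s ^ (N * m) • y p) = 0 := by
      intro v
      have h2 := hf s hs v
      rw [hfy, msum_apply, msum_apply, map_sum] at h2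
      simp only [ten_apply, map_smul] at h2
      simp only [smul_sub, Finset.sum_sub_distrib]
      rw [← h2, ← Finset.sum_sub_distrib]
      refine Finset.sum_eq_zero fun p _ => ?_
      rw [hsim, smul_smul, mul_comm, sub_self]
    have h3 : τ s (y p0) - χ s ^ (N * m) • y p0 = 0 := by
      refine (Module.forall_dual_apply_eq_zero_iff k _).1 fun m' => ?_
      have h4 : ∑ p : P, m' (τ s (y p) - χ s ^ (N * m) • y p) • p.1 = 0 := by
        refine MultilinearMap.ext fun v => ?_
        rw [msum_apply, MultilinearMap.zero_apply, ← map_zero m', ← h1 v, map_sum]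
        refine Finset.sum_congr rfl fun p _ => ?_
        rw [map_smul, MultilinearMap.smul_apply, smul_eq_mul, smul_eq_mul, mul_comm]
      exact (Fintype.linearIndependent_iff.1 hP3) _ h4 p0
    exact sub_eq_zero.1 h3
  rw [hfy]
  refine Submodule.sum_mem _ fun p _ => Submodule.subset_span ?_
  obtain ⟨m, hm, -⟩ := gp_sim h (hP1 p.2)
  obtain ⟨m', e, i, hp⟩ := hP1 p.2
  have hmm : m' = m := by
    have h1 := Fintype.card_congr e
    rw [Fintype.card_prod, Fintype.card_fin, Fintype.card_fin, Fintype.card_fin] at h1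
    omega
  subst hmm
  refine ⟨m', e, i, y p, ⟨Δf, hΔf, hy m' hm p⟩, fun v => ?_⟩
  rw [ten_apply, hp]

end

end Pool.Agent.Y128.CX
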