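import Pool.Agent.Y128.CX.Frame

/-!
# The product of the eigenvalues and the determinants
-/

set_option linter.unusedSectionVars false

namespace Pool.Agent.Y128.CX

open Module Pool.Agent.H204R3.SP Pool.Agent.H204R3.GP Pool.Agent.H204R3.CM
  Pool.Agent.W529.Ta Pool.Agent.W522.U Pool.Agent.TH118.CR Pool.Agent.Y128.CC

noncomputable section

variable {K : Type} [Field K] [CharZero K] {X : Type} [AddCommGroup X] [Module K X]
  {Γ : Type} [Group Γ] {I : Type} {κ : Type} [Fintype κ] [DecidableEq κ]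
  {R : Representation K Γ X} {χ : Γ →* K} {E : I → Submodule K X} {st : I → I}
  {ω : X →ₗ[K] X →ₗ[K] K} {T : Set (MultilinearMap K (fun _ : κ => X) K)}
  (D : DD R χ E st ω T) {ι : Type} [Fintype ι] [DecidableEq ι]

include D in
/-- The determinant on `E i`. -/
theorem det_cls [DecidableEq I] [FiniteDimensional K X] (F : FF E st ω ι) {γ : Γ} {α : ι → K}
    (hα : ∀ x, F.e x ∈ Module.End.maxGenEigenspace (R γ) (α x)) (i : I)
    (h : ∀ u ∈ E i, R γ u ∈ E i) :
    LinearMap.det ((R γ).restrict h) = ∏ x with F.cls x = i, α x := by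
  let v : {x // F.cls x = i} → E i := fun x => ⟨F.e x, by
    have h0 := F.mem x
    rwa [x.2] at h0⟩
  have hli : LinearIndependent K v := by
    have h1 : LinearIndependent K ((E i).subtype ∘ v) :=
      F.e.linearIndependent.comp (fun x : {x // F.cls x = i} => (x : ι)) Subtype.val_injective
    exact h1.of_comp
  have hsp : ⊤ ≤ Submodule.span K (Set.range v) := by
    rintro ⟨u, hu⟩ -
    have h1 : (⟨u, hu⟩ : E i) = ∑ x : {x // F.cls x = i}, F.e.repr u x • v x := by
      apply Subtype.ext
      rw [AddSubmonoidClass.coe_finsetSum]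
      change u = ∑ x : {x // F.cls x = i}, F.e.repr u x • F.e x
      conv_lhs => rw [← F.e.sum_repr u]
      rw [← Finset.sum_subset (Finset.subset_univ (Finset.univ.filter fun x => F.cls x = i))]
      · exact (Finset.sum_subtype (Finset.univ.filter fun x => F.cls x = i)
          (fun x => by rw [Finset.mem_filter]; exact ⟨fun h => h.2, fun h => ⟨Finset.mem_univ _, h⟩⟩)
          (fun x => F.e.repr u x • F.e x))
      · intro x _ hx
        have h2 : F.cls x ≠ i := fun h3 => hx (Finset.mem_filter.2 ⟨Finset.mem_univ _, h3⟩)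
        rw [repr_zero D F hu h2, zero_smul]
    rw [h1]
    exact Submodule.sum_mem _ fun x _ => Submodule.smul_mem _ _ (Submodule.subset_span ⟨x, rfl⟩)
  let B : Basis {x // F.cls x = i} K (E i) := Basis.mk hli hsp
  have hpow : ∀ (a : K) (k : ℕ) (u : E i), ((((((R γ).restrict h) - a • (1 : Module.End K (E i))) ^ k) u :
      E i) : X) = ((R γ - a • (1 : Module.End K X)) ^ k) (u : X) := by
    intro a k
    induction k with
    | zero => intro v; rfl
    | succ k ih =>
      intro v
      rw [pow_succ, Module.End.mul_apply, ih, pow_succ, Module.End.mul_apply]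
      rfl
  have h1 := det_gen B ((R γ).restrict h) (fun x => α x) (fun x => by
    have h2 := hα x
    rw [Module.End.mem_maxGenEigenspace] at h2 ⊢
    obtain ⟨k, hk⟩ := h2
    refine ⟨k, Subtype.ext ?_⟩
    rw [hpow, ZeroMemClass.coe_zero]
    have h3 : ((B x : E i) : X) = F.e x := by
      change ((Basis.mk hli hsp x : E i) : X) = F.e x
      rw [Basis.mk_apply]
    rw [h3]
    exact hk)
  rw [h1]
  exact (Finset.prod_subtype (Finset.univ.filter fun x => F.cls x = i)
    (fun x => by rw [Finset.mem_filter]; exact ⟨fun h => h.2, fun h => ⟨Finset.mem_univ _, h⟩⟩)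
    α).symm

/-- The product of the values over an index map. -/
theorem prod_cnt (α : ι → K) (J : κ → ι) : ∏ l, α (J l) = ∏ x, α x ^ FF.cnt J x := by
  rw [← Finset.prod_fiberwise_of_maps_to (g := J) (t := Finset.univ) (fun l _ => Finset.mem_univ _)]
  refine Finset.prod_congr rfl fun x _ => ?_
  rw [Finset.prod_congr rfl (g := fun _ => α x) (fun l hl => by rw [(Finset.mem_filter.1 hl).2]),
    Finset.prod_const]
  rfl

/-- **The product of the eigenvalues.** -/
theorem prod_sq [DecidableEq I] (F : FF E st ω ι) [Fintype I] {α : ι → K} {q : K}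
    (hq : ∀ x, α x * α (F.inv x) = q)
    (J : κ → ι) (hd : ∀ b c, F.cls b = F.cls c →
      (FF.cnt J b : ℤ) - FF.cnt J (F.inv b) = FF.cnt J c - FF.cnt J (F.inv c)) :
    ∃ (e : ℕ) (c : I → ℕ), (∀ i, c i * c (st i) = 0) ∧
      (∀ x, FF.cnt J x - FF.cnt J (F.inv x) = c (F.cls x)) ∧
      (∏ l, α (J l)) ^ 2 = q ^ e * (∏ i, (∏ x with F.cls x = i, α x) ^ c i) ^ 2 := by
  classical
  let c : I → ℕ := fun i => if h : ∃ x, F.cls x = i then
    FF.cnt J h.choose - FF.cnt J (F.inv h.choose) else 0
  have hc : ∀ x, FF.cnt J x - FF.cnt J (F.inv x) = c (F.cls x) := by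
    intro x
    have h : ∃ y, F.cls y = F.cls x := ⟨x, rfl⟩
    have h1 : c (F.cls x) = FF.cnt J h.choose - FF.cnt J (F.inv h.choose) := dif_pos h
    have h2 := hd _ _ h.choose_spec
    rw [h1]
    omega
  have hc0 : ∀ i, c i * c (st i) = 0 := by
    intro i
    by_cases h : ∃ x, F.cls x = i
    · obtain ⟨x, rfl⟩ := h
      rw [← F.cls_inv, ← hc, ← hc, F.inv_inv]
      rcases Nat.le_total (FF.cnt J x) (FF.cnt J (F.inv x)) with h1 | h1
      · rw [Nat.sub_eq_zero_of_le h1, zero_mul]
      · rw [Nat.sub_eq_zero_of_le h1, mul_zero]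
    · have h1 : c i = 0 := dif_neg h
      rw [h1, zero_mul]
  refine ⟨∑ x, min (FF.cnt J x) (FF.cnt J (F.inv x)), c, hc0, hc, ?_⟩
  have h1 : ∏ l, α (J l) = (∏ x, α x ^ min (FF.cnt J x) (FF.cnt J (F.inv x))) *
      ∏ x, α x ^ c (F.cls x) := by
    rw [prod_cnt, ← Finset.prod_mul_distrib]
    refine Finset.prod_congr rfl fun x _ => ?_
    rw [← pow_add, ← hc]
    congr 1
    omega
  have h2 : (∏ x, α x ^ min (FF.cnt J x) (FF.cnt J (F.inv x))) ^ 2 =
      q ^ ∑ x, min (FF.cnt J x) (FF.cnt J (F.inv x)) := by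
    have h3 : ∏ x, α x ^ min (FF.cnt J x) (FF.cnt J (F.inv x)) =
        ∏ x, α (F.inv x) ^ min (FF.cnt J x) (FF.cnt J (F.inv x)) := by
      refine Finset.prod_bijective F.inv (Function.Involutive.bijective F.inv_inv)
        (fun x => ⟨fun _ => Finset.mem_univ _, fun _ => Finset.mem_univ _⟩) fun x _ => ?_
      rw [F.inv_inv, min_comm]
    rw [sq]
    conv_lhs => rw [h3]
    rw [← h3]
    conv_lhs =>
      congr
      · skip
      · rw [h3]
    rw [← Finset.prod_mul_distrib, ← Finset.prod_pow_eq_pow_sum]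
    refine Finset.prod_congr rfl fun x _ => ?_
    rw [← mul_pow, hq]
  have h3 : ∏ x, α x ^ c (F.cls x) = ∏ i, (∏ x with F.cls x = i, α x) ^ c i := by
    rw [← Finset.prod_fiberwise_of_maps_to (g := F.cls) (t := Finset.univ)
      (fun l _ => Finset.mem_univ _)]
    refine Finset.prod_congr rfl fun i _ => ?_
    rw [← Finset.prod_pow]
    refine Finset.prod_congr rfl fun x hx => ?_
    rw [(Finset.mem_filter.1 hx).2]
  rw [h1, mul_pow, h2, h3]

end

end Pool.Agent.Y128.CX
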