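import Pool.Agent.Y128.CX.Mem
import Pool.Agent.Y128.CX.Val
import Pool.Agent.Y128.CX.Wt
import Pool.Agent.Y128.CX.Num
import Pool.Agent.Y128.CX.Gen
import Pool.Agent.Y128.CX.Defs2

/-!
# All numbers of factors
-/

set_option linter.unusedSectionVars false

namespace Pool.Agent.Y128.CX

open Module TensorProduct Polynomial Pool.Agent.H204R3.SP Pool.Agent.H204R3.GP Pool.Agent.H204R3.CM
  Pool.Agent.W529.Ta Pool.Agent.W522.U Pool.Agent.TH118.CR Pool.Agent.Y128.CC Pool.Agent.Y128.SJ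

noncomputable section

variable {p N d : ℕ} [hp : Fact p.Prime] {k V M Γ : Type} [Field k] [CharZero k] [AddCommGroup V]
  [Module k V] [FiniteDimensional k V] [AddCommGroup M] [Module k M] [Group Γ]
  {ρ : Representation k Γ V} {χ : Γ →* k} {ω : V →ₗ[k] V →ₗ[k] k} {σ : Module.End k V}
  {τ : Representation k Γ M}

/-- An invariant with values gives an eigenvalue. -/
theorem slice_root {n : ℕ} {ν : Type} [Fintype ν] [DecidableEq ν] (b : Basis ν k V)
    {f : MultilinearMap k (fun _ : Fin n => V) M} {s : Γ}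
    (hs : ∀ v : Fin n → V, f (fun l => ρ s (v l)) = τ s (f v)) (μ : Dual k M)
    {α : Fin n → AlgebraicClosure k} {v : Fin n → AlgebraicClosure k ⊗[k] V}
    (hv : ∀ l, v l ∈ Module.End.maxGenEigenspace (bcr ρ (AlgebraicClosure k) s) (α l))
    (h0 : bcm (Ω := AlgebraicClosure k) b (μ.compMultilinearMap f) v ≠ 0) :
    aeval (∏ l, α l) (minpoly k (τ s)) = 0 := by
  have h1 := root_of_kill (bcr ρ (AlgebraicClosure k) s) α v hv h0
    (Q := (minpoly k (τ s)).map (algebraMap k (AlgebraicClosure k))) (by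
      rw [aeval_slice b hs, minpoly.aeval]
      have h2 : (μ.comp (0 : Module.End k M)).compMultilinearMap f = 0 := by
        refine MultilinearMap.ext fun v => ?_
        exact map_zero μ
      rw [h2]
      exact map_zero (bcmL (Ω := AlgebraicClosure k) b))
  rwa [eval_map, ← aeval_def] at h1

/-- The slices of a Tate class with values. -/
theorem all_slices [FiniteDimensional k M] (hp2 : p ≠ 2)
    (h : CyclicModule p N (coverRank N d) ρ χ ω σ)
    (hr : 3 ≤ coverRank N d) (hslope : (coverRank N d : ℚ) - (-1) ^ N * (N + 1) ≠ 0)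
    (hH : HasHodgeSumsWithValues p (coverHodge p N d) ρ χ σ τ)
    (hirr : StronglyIrreducibleEigenspaces p ρ σ) (hF : NonscalarOnEigenspaces p ρ σ)
    {g : Γ} (hg : IsReflection p σ (ρ g)) (hgc : ActsCentrally τ g)
    {n : ℕ} {f : MultilinearMap k (fun _ : Fin n => V) M}
    (hf : IsTateTensorWithValues ρ τ f) (μ : Dual k M) :
    μ.compMultilinearMap f ∈ Submodule.span k (graphProducts ω σ n) := by
  classical
  have : NeZero ((p : ℕ) : AlgebraicClosure k) := ⟨Nat.cast_ne_zero.2 hp.out.ne_zero⟩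
  obtain ⟨z₀, hz₀⟩ := HasEnoughRootsOfUnity.exists_primitiveRoot (AlgebraicClosure k) p
  obtain ⟨Θ, hΘ, DD0, hk⟩ := core hp2 h hr hirr hF hg hgc hz₀ (Module.finBasis k V) hf
  obtain ⟨q, a, hq, γ, D, w, ha, hχ, hw, hD, hval, hNC⟩ := hH
  obtain ⟨n', F, α, hα, hαα⟩ := exists_FF DD0 γ
  refine slice_mem h hz₀ (Module.finBasis k V) (μ.compMultilinearMap f) hΘ DD0 F
    (fun i u w hu hw huw => hk i u w hu hw huw μ) fun J hJ => ?_
  obtain ⟨Δf, hΔf, hf⟩ := hf
  obtain ⟨m₀, hm₀, -, hm⟩ := Subgroup.exists_pow_mem_of_index_ne_zero hΔf.index_ne_zero γ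
  obtain ⟨e, c, hc0, hc, hsq⟩ := prod_sq F hαα J fun b b' hbb =>
    F.diff_eq _ (fun i u w hu hw huw => hk i u w hu hw huw μ) hJ hbb
  have hst : ∀ i : (ZMod p)ˣ, ∀ u ∈ EE (σ.baseChange (AlgebraicClosure k)) z₀ i,
      bcr ρ (AlgebraicClosure k) γ u ∈ EE (σ.baseChange (AlgebraicClosure k)) z₀ i :=
    fun i => eig_stable _ h.cyclic.comm (ev z₀ i) γ
  have hdet : ∀ i : (ZMod p)ˣ, ∏ x with F.cls x = i, α x = aeval (ev z₀ i) D := fun i =>
    (det_cls DD0 F hα i (hst i)).symm.trans (hD _ (ev_prim hz₀ i) (hst i))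
  simp only [hdet] at hsq
  have hχ' : bcc (χ ^ N) (AlgebraicClosure k) γ = (q : AlgebraicClosure k) ^ (a * N) := by
    rw [bcc_apply, MonoidHom.pow_apply, hχ, ← pow_mul, map_pow, map_natCast]
  rw [hχ'] at hsq
  set W : AlgebraicClosure k := ∏ i, (aeval (ev z₀ i) D) ^ c i with hW
  -- the eigenvalue
  have hmem : γ ^ (2 * m₀) ∈ Δf := by
    rw [mul_comm, pow_mul]
    exact Δf.pow_mem hm 2
  have hroot := slice_root (Module.finBasis k V) (hf _ hmem) μ
    (α := fun l => α (J l) ^ (2 * m₀)) (v := fun l => F.e (J l)) (fun l => by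
      rw [map_pow]
      exact gen_pow _ _ _ (hα (J l))) hJ
  rw [Finset.prod_pow, pow_mul, hsq, map_pow] at hroot
  let P : ℚ[X] := ((Polynomial.C (q : ℚ)) ^ (a * N * e) *
    (∏ i : (ZMod p)ˣ, (D.comp (Polynomial.X ^ (i : ZMod p).val)) ^ c i) ^ 2) ^ m₀
  have hP : aeval z₀ P = (((q : AlgebraicClosure k) ^ (a * N)) ^ e * W ^ 2) ^ m₀ := by
    simp only [P, map_mul, map_pow, map_prod, aeval_comp, aeval_X, map_natCast]
    rw [hW, pow_mul]
    rfl
  rw [← hP] at hroot
  obtain ⟨j, hj⟩ := hNC (2 * m₀) (by omega) z₀ hz₀ P hroot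
  rw [hP] at hj
  have hq0 : (q : AlgebraicClosure k) ≠ 0 := Nat.cast_ne_zero.2 hq.out.ne_zero
  have hW4 : W ^ (4 * m₀) = (q : AlgebraicClosure k) ^ (j - ((a * N * e * m₀ * 2 : ℕ) : ℤ)) := by
    rw [zpow_sub₀ hq0, zpow_natCast, ← hj]
    field_simp
    ring
  have h4 := sum_hodge_mult hz₀ hw hval c (N := 4 * m₀) (by omega) hW4
  have h4a : (((4 * m₀ : ℕ) : ℚ) * a) ≠ 0 := by
    have h5 : (0 : ℚ) < m₀ := by exact_mod_cast hm₀
    have h6 : (0 : ℚ) < a := by exact_mod_cast ha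
    push_cast
    positivity
  have h5 : ∀ s : (ZMod p)ˣ, ∑ i, (c i : ℚ) * coverHodge p N d ((i * s : (ZMod p)ˣ) : ZMod p) =
      ((j - ((a * N * e * m₀ * 2 : ℕ) : ℤ) : ℤ) : ℚ) / (((4 * m₀ : ℕ) : ℚ) * a) := by
    intro s
    rw [eq_div_iff h4a, mul_comm]
    exact h4 s
  have h6 : ∀ i, c i = 0 := by
    intro i
    have h7 := mult_symm hslope h5 i
    have h8 := hc0 i
    rw [← h7] at h8
    exact mul_self_eq_zero.1 h8
  have h7 : ∀ x, FF.cnt J x ≤ FF.cnt J (F.inv x) := by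
    intro x
    have h8 := hc x
    rw [h6] at h8
    omega
  intro x
  refine le_antisymm (h7 x) ?_
  have h8 := h7 (F.inv x)
  rwa [F.inv_inv] at h8

/-- **Tate classes on the products of the powers of cyclic coverings with other varieties.** -/
theorem all [FiniteDimensional k M] (hp2 : p ≠ 2)
    (h : CyclicModule p N (coverRank N d) ρ χ ω σ)
    (hr : 3 ≤ coverRank N d) (hslope : (coverRank N d : ℚ) - (-1) ^ N * (N + 1) ≠ 0)
    (hH : HasHodgeSumsWithValues p (coverHodge p N d) ρ χ σ τ)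
    (hirr : StronglyIrreducibleEigenspaces p ρ σ) (hF : NonscalarOnEigenspaces p ρ σ)
    {g : Γ} (hg : IsReflection p σ (ρ g)) (hgc : ActsCentrally τ g)
    {n : ℕ} {f : MultilinearMap k (fun _ : Fin n => V) M}
    (hf : IsTateTensorWithValues ρ τ f) :
    f ∈ Submodule.span k (graphProductsWithValues N χ ω σ τ n) :=
  of_slices h hf fun μ => all_slices hp2 h hr hslope hH hirr hF hg hgc hf μ

end

end Pool.Agent.Y128.CX
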