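import Pool.Agent.Y128.CX.Lie

/-!
# The special linear Lie algebras
-/

set_option linter.unusedSectionVars false

namespace Pool.Agent.Y128.CX

open Module Pool.Agent.H204R3.SP Pool.Agent.H204R3.GP Pool.Agent.W529.Ta
  Pool.Agent.W522.U Pool.Agent.TH118.CR Pool.Agent.Y128.CC

noncomputable section

variable {K : Type} [Field K] [CharZero K] {X : Type} [AddCommGroup X] [Module K X]
  {Γ : Type} [Group Γ] {I : Type} {κ : Type} [Fintype κ] [DecidableEq κ]
  {R : Representation K Γ X} {χ : Γ →* K} {E : I → Submodule K X} {st : I → I}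
  {ω : X →ₗ[K] X →ₗ[K] K} {T : Set (MultilinearMap K (fun _ : κ => X) K)}
  (D : DD R χ E st ω T)

/-- The skew operator attached to two vectors. -/
def sk (ω : X →ₗ[K] X →ₗ[K] K) (u w : X) : Module.End K X := (ω u).smulRight w + (ω w).smulRight u

theorem sk_apply (u w v : X) : sk ω u w v = ω u v • w + ω w v • u := rfl

/-- The representation on `E i`. -/
def rr (D : DD R χ E st ω T) (i : I) : Representation K Γ (E i) where
  toFun g := (R g).restrict (D.Est i g)
  map_one' := by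
    ext u
    rw [LinearMap.restrict_coe_apply, map_one]
    rfl
  map_mul' := by
    intro g h
    ext u
    rw [LinearMap.restrict_coe_apply, map_mul]
    rfl

theorem rr_apply (i : I) (g : Γ) (u : E i) : ((rr D i g u : E i) : X) = R g u := rfl

/-- The families of operators coming from `LL` which vanish outside `i` and `st i`. -/
def hh (_D : DD R χ E st ω T) (i : I) : Submodule K (∀ j, Module.End K (E j)) where
  carrier := {Z | ∃ Y ∈ LL E ω T, (∀ j (u : E j), ((Z j u : E j) : X) = Y u) ∧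
    ∀ j, j ≠ i → j ≠ st i → Z j = 0}
  zero_mem' := ⟨0, Submodule.zero_mem _, fun j u => rfl, fun j _ _ => rfl⟩
  add_mem' := by
    rintro Z Z' ⟨Y, hY, h1, h2⟩ ⟨Y', hY', h1', h2'⟩
    refine ⟨Y + Y', Submodule.add_mem _ hY hY', fun j u => ?_, fun j hj hj' => ?_⟩
    · rw [Pi.add_apply, LinearMap.add_apply, LinearMap.add_apply, Submodule.coe_add, h1, h1']
    · rw [Pi.add_apply, h2 j hj hj', h2' j hj hj', add_zero]
  smul_mem' := by
    rintro c Z ⟨Y, hY, h1, h2⟩
    refine ⟨c • Y, Submodule.smul_mem _ _ hY, fun j u => ?_, fun j hj hj' => ?_⟩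
    · rw [Pi.smul_apply, LinearMap.smul_apply, LinearMap.smul_apply, Submodule.coe_smul, h1]
    · rw [Pi.smul_apply, h2 j hj hj', smul_zero]

theorem lieFam_hh (i : I) : LieFam (rr D) (hh D i) where
  br := by
    rintro Z ⟨Y, hY, h1, h2⟩ Z' ⟨Y', hY', h1', h2'⟩
    refine ⟨Y * Y' - Y' * Y, LL_bracket hY hY', fun j u => ?_, fun j hj hj' => ?_⟩
    · change ((Z j (Z' j u) - Z' j (Z j u) : E j) : X) = Y (Y' u) - Y' (Y u)
      rw [Submodule.coe_sub, h1, h1', h1', h1]
    · change Z j * Z' j - Z' j * Z j = 0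
      rw [h2 j hj hj', zero_mul, mul_zero, sub_zero]
  conj := by
    rintro g Z ⟨Y, hY, h1, h2⟩
    refine ⟨R g * Y * R g⁻¹, LL_conj D g hY, fun j u => ?_, fun j hj hj' => ?_⟩
    · change ((rr D j g (Z j (rr D j g⁻¹ u)) : E j) : X) = R g (Y (R g⁻¹ u))
      rw [rr_apply, h1, rr_apply]
    · change rr D j g * Z j * rr D j g⁻¹ = 0
      rw [h2 j hj hj', mul_zero, zero_mul]

theorem irr_rr (i : I) (hSI : SI R (E i)) : Irr (rr D i) := by
  intro Δ hΔ W hW
  rcases hSI.2.2 (W.map (E i).subtype) (by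
    rintro _ ⟨u, _, rfl⟩
    exact u.2) ⟨Δ, hΔ, by
      rintro s hs _ ⟨u, hu, rfl⟩
      exact ⟨rr D i s u, hW s hs u hu, rfl⟩⟩ with h | h
  · left
    rw [eq_bot_iff]
    intro u hu
    have h1 : (u : X) ∈ W.map (E i).subtype := ⟨u, hu, rfl⟩
    rw [h, Submodule.mem_bot] at h1
    exact Subtype.ext h1
  · right
    rw [eq_top_iff]
    intro u _
    have h1 : (u : X) ∈ W.map (E i).subtype := by
      rw [h]
      exact u.2
    obtain ⟨v, hv, hvu⟩ := h1
    have h2 : v = u := Subtype.ext hvu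
    rwa [← h2]

variable {g : Γ} {ε : I → K} {k : ℕ} (hg : RR R E g ε k)

include hg in
/-- There is no alternating form which is preserved up to scalars. -/
theorem no_beta [FiniteDimensional K X] (i : I) (h3 : 3 ≤ finrank K (E i)) (β : E i →ₗ[K] Dual K (E i)) (ψ : Γ → K)
    (hinj : Function.Injective β) (halt : ∀ u, β u u = 0)
    (hβ : ∀ g u v, β (rr D i g u) (rr D i g v) = ψ g * β u v) : False := by
  obtain ⟨d, φ, hd, hφ, h⟩ := hg.refl i
  let d0 : E i := ⟨d, hd⟩
  let φ0 : E i →ₗ[K] K := φ.comp (E i).subtype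
  have hφ0 : φ0 d0 = 1 := hφ
  have hd0 : d0 ≠ 0 := by
    intro h0
    rw [h0, map_zero] at hφ0
    exact zero_ne_one hφ0
  have hfix : ∀ u : E i, φ0 u = 0 → rr D i g u = u := by
    intro u hu
    apply Subtype.ext
    have hu' : φ (u : X) = 0 := hu
    rw [rr_apply, h _ u.2, hu', mul_zero, zero_smul, add_zero]
  have hgd : rr D i g d0 = ε i • d0 := by
    apply Subtype.ext
    rw [rr_apply, h d hd, hφ, mul_one, Submodule.coe_smul]
    module
  have hsub : ∀ v : E i, φ0 (v - φ0 v • d0) = 0 := by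
    intro v
    rw [map_sub, map_smul, hφ0, smul_eq_mul, mul_one, sub_self]
  obtain ⟨u, v, hu, hv, huv⟩ : ∃ u v : E i, φ0 u = 0 ∧ φ0 v = 0 ∧ β u v ≠ 0 := by
    by_contra hcon
    push Not at hcon
    obtain ⟨u, -, hu0, hu1, hu2⟩ := exists_zero2 (U := (⊤ : Submodule K (E i)))
      (by rw [finrank_top]; exact h3) φ0 (β.flip d0)
    apply hu0
    apply hinj
    rw [map_zero]
    ext v
    have h1 := hcon u (v - φ0 v • d0) hu1 (hsub v)
    have h2 : β u d0 = 0 := hu2
    rw [map_sub, map_smul, h2, smul_zero, sub_zero] at h1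
    exact h1
  have hψ : ψ g = 1 := by
    have h1 := hβ g u v
    rw [hfix u hu, hfix v hv] at h1
    exact (mul_right_cancel₀ huv (by rw [one_mul]; exact h1)).symm
  apply hd0
  apply hinj
  rw [map_zero]
  ext v
  have h1 := hβ g d0 (v - φ0 v • d0)
  rw [hfix _ (hsub v), hgd, hψ, one_mul, map_smul, LinearMap.smul_apply, smul_eq_mul, map_sub,
    map_smul, halt, smul_zero, sub_zero] at h1
  have h2 : (ε i - 1) * β d0 v = 0 := by rw [sub_mul, one_mul, h1, sub_self]
  exact (mul_eq_zero.1 h2).resolve_left (sub_ne_zero.2 (hg.ne_one i))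

include D hg in
/-- **The special linear Lie algebras.** -/
theorem sk_mem [IsAlgClosed K] [FiniteDimensional K X] (i : I) (h3 : 3 ≤ finrank K (E i))
    (hSI : SI R (E i)) {Δ : Subgroup Γ} (hΔ : Δ.Normal) (hfi : Δ.FiniteIndex)
    (hT : ∀ ψ ∈ T, ∀ t ∈ Δ, TT (R (g * t * g⁻¹ * t⁻¹)) ψ = ψ)
    (hF : ∃ F : Γ, ∀ N : ℕ, 0 < N → ∀ a : K, ∃ u ∈ E i, R (F ^ N) u ≠ a • u) {u w : X}
    (hu : u ∈ E i) (hw : w ∈ E (st i)) (huw : ω u w = 0) : sk ω u w ∈ LL E ω T := by
  classical
  obtain ⟨Y0, hY0, hY1, w0, φ0, hw0, hw0', ⟨u0, hu0, hφu0⟩, hφ0, hY2⟩ :=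
    exists_nil D hg i h3 hSI hΔ hfi hT hF
  have hwu : ω w u = 0 := by rw [D.skew, huw, neg_zero]
  -- all operators of rank one
  have hall : ∀ (u' : E i) (φ : Dual K (E i)), φ u' = 0 →
      ∃ Z ∈ hh D i, Z i = φ.smulRight u' := by
    have hne : ∃ (u' : E i) (φ : Dual K (E i)), u' ≠ 0 ∧ φ ≠ 0 ∧
        (φ u' = 0 ∧ ∃ Z ∈ hh D i, Z i = φ.smulRight u') := by
      refine ⟨⟨w0, hw0⟩, φ0.comp (E i).subtype, fun h0 => hw0' (congrArg Subtype.val h0),
        fun h0 => hφu0 ?_, hφ0, fun j => Y0.restrict (hY0.1 j), ⟨Y0, hY0, fun j u => rfl,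
          fun j hj hj' => ?_⟩, ?_⟩
      · exact congrArg (fun f : Dual K (E i) => f ⟨u0, hu0⟩) h0
      · ext u'
        exact hY1 j hj hj' u' u'.2
      · ext u'
        exact hY2 u' u'.2
    rcases main (sys_one (lieFam_hh D i) i) (irr_rr D i hSI) hne with ⟨_, h⟩ | ⟨β, ψ, h1, h2, _, h4⟩
    · intro u' φ hφ
      exact (h u' φ hφ).2
    · exact (no_beta D hg i h3 β ψ h2 h1 h4).elim
  obtain ⟨Z, ⟨Y, hY, hZY, hZ0⟩, hZi⟩ := hall ⟨u, hu⟩ ((ω w).comp (E i).subtype) hwu
  have hYi : ∀ v ∈ E i, Y v = ω w v • u := by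
    intro v hv
    have h1 := hZY i ⟨v, hv⟩
    rw [hZi] at h1
    exact h1.symm
  have hYj : ∀ j, j ≠ i → j ≠ st i → ∀ v ∈ E j, Y v = 0 := by
    intro j hj hj' v hv
    have h1 := hZY j ⟨v, hv⟩
    rw [hZ0 j hj hj'] at h1
    exact h1.symm
  have hYs : ∀ v ∈ E (st i), Y v = ω u v • w := by
    intro v hv
    rw [← sub_eq_zero]
    refine D.nd _ fun v' => ?_
    have h1 : ω (Y v - ω u v • w) = 0 := D.ext_top fun j v' hv' => by
      rw [LinearMap.zero_apply]
      by_cases hj : j = i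
      · subst hj
        have h2 := hY.2.1 v v'
        rw [hYi v' hv', map_smul, smul_eq_mul] at h2
        have h4 := D.skew v u
        rw [map_sub, map_smul, LinearMap.sub_apply, LinearMap.smul_apply, smul_eq_mul]
        linear_combination h2 - (ω w v') * h4
      · refine D.orth (st i) j (by rw [D.st_st]; exact hj) _ ?_ v' hv'
        exact (E _).sub_mem (hY.1 _ v hv) ((E _).smul_mem _ hw)
    rw [h1, LinearMap.zero_apply]
  have h1 : Y = sk ω u w := D.ext_top fun j v hv => by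
    rw [sk_apply]
    by_cases hj : j = i
    · subst hj
      rw [hYi v hv, D.orth j j (D.st_ne j).symm u hu v hv, zero_smul, zero_add]
    · by_cases hj' : j = st i
      · subst hj'
        rw [hYs v hv, D.orth (st i) (st i) (by rw [D.st_st]; exact D.st_ne i) w hw v hv, zero_smul,
          add_zero]
      · rw [hYj j hj hj' v hv, D.orth i j hj' u hu v hv,
          D.orth (st i) j (by rw [D.st_st]; exact hj) w hw v hv, zero_smul, zero_smul, add_zero]
  rw [← h1]
  exact hY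

end

end Pool.Agent.Y128.CX
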