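import Pool.Agent.Y128.CX.Slice
import Pool.Agent.Y128.CX.Full

/-!
# The slices are killed by the Lie algebra
-/

set_option linter.unusedSectionVars false

namespace Pool.Agent.Y128.CX

open Module TensorProduct Polynomial Pool.Agent.H204R3.SP Pool.Agent.H204R3.GP Pool.Agent.H204R3.CM
  Pool.Agent.W529.Ta Pool.Agent.W522.U Pool.Agent.TH118.CR Pool.Agent.Y128.CC Pool.Agent.Y128.SJ

noncomputable section

section slices

variable {k : Type} [Field k] {V : Type} [AddCommGroup V] [Module k V] {M : Type} [AddCommGroup M]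
  [Module k M] {Γ : Type} [Group Γ] {ρ : Representation k Γ V} {τ : Representation k Γ M}
  (K : Type) [Field K] [Algebra k K] {ν : Type} [Fintype ν] [DecidableEq ν]
  (b : Basis ν k V) {κ : Type} [Fintype κ] [DecidableEq κ]

theorem TT_TT {K X : Type} [Field K] [AddCommGroup X] [Module K X] (R : Representation K Γ X)
    (h h' : Γ) (φ : MultilinearMap K (fun _ : κ => X) K) :
    TT (R h') (TT (R h) φ) = TT (R (h * h')) φ := by
  refine MultilinearMap.ext fun v => ?_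
  change φ (fun l => R h (R h' (v l))) = φ (fun l => R (h * h') (v l))
  rw [map_mul]
  rfl

/-- The translates of the slices. -/
def TS (ρ : Representation k Γ V) (f : MultilinearMap k (fun _ : κ => V) M) :
    Set (MultilinearMap K (fun _ : κ => K ⊗[k] V) K) :=
  {ψ | ∃ (h : Γ) (μ : Dual k M), ψ = TT (bcr ρ K h) (bcm b (μ.compMultilinearMap f))}

theorem TS_tr (f : MultilinearMap k (fun _ : κ => V) M) (h : Γ) :
    ∀ ψ ∈ TS K b ρ f, TT (bcr ρ K h) ψ ∈ TS K b ρ f := by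
  rintro _ ⟨h', μ, rfl⟩
  exact ⟨h' * h, μ, TT_TT (bcr ρ K) h' h _⟩

theorem TS_self (f : MultilinearMap k (fun _ : κ => V) M) (μ : Dual k M) :
    bcm b (μ.compMultilinearMap f) ∈ TS K b ρ f := by
  refine ⟨1, μ, ?_⟩
  rw [map_one]
  rfl

theorem TS_fix {f : MultilinearMap k (fun _ : κ => V) M} {Δ : Subgroup Γ} (hn : Δ.Normal)
    (hf : ∀ s ∈ Δ, ∀ v : κ → V, f (fun l => ρ s (v l)) = τ s (f v)) {g : Γ}
    (hg : ∀ s ∈ Δ, τ g * τ s = τ s * τ g) :
    ∀ ψ ∈ TS K b ρ f, ∀ t ∈ Δ, TT (bcr ρ K (g * t * g⁻¹ * t⁻¹)) ψ = ψ := by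
  rintro _ ⟨h, μ, rfl⟩ t ht
  set c := g * t * g⁻¹ * t⁻¹ with hc
  have h1 : τ c = 1 := by
    have h2 : τ (g * t) = τ (t * g) := by rw [map_mul, map_mul, hg t ht]
    have h3 : τ c = τ (g * t) * τ (g⁻¹ * t⁻¹) := by rw [← map_mul, hc]; congr 1; group
    rw [h3, h2, ← map_mul]
    have h4 : t * g * (g⁻¹ * t⁻¹) = 1 := by group
    rw [h4, map_one]
  have h2 : c ∈ Δ := Δ.mul_mem (hn.conj_mem t ht g) (Δ.inv_mem ht)
  have h3 : h * c * h⁻¹ ∈ Δ := hn.conj_mem c h2 h
  have h4 : τ (h * c * h⁻¹) = 1 := by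
    rw [map_mul, map_mul, h1, mul_one, ← map_mul, mul_inv_cancel, map_one]
  have h5 : h * c = (h * c * h⁻¹) * h := by group
  rw [TT_TT, h5, ← TT_TT, TT_slice b (hf _ h3), h4]
  rfl

end slices

section

variable {p N r : ℕ} [hp : Fact p.Prime] {k V M Γ : Type} [Field k] [CharZero k] [AddCommGroup V]
  [Module k V] [FiniteDimensional k V] [AddCommGroup M] [Module k M] [Group Γ]
  {ρ : Representation k Γ V} {χ : Γ →* k} {ω : V →ₗ[k] V →ₗ[k] k} {σ : Module.End k V}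
  {τ : Representation k Γ M}

theorem cm_right (h : CyclicModule p N r ρ χ ω σ) : ∀ u, (∀ v, ω v u = 0) → u = 0 := by
  intro u hu
  refine h.nondeg u fun v => ?_
  have h1 := h.symm u v
  rw [hu] at h1
  exact (mul_eq_zero.1 h1.symm).resolve_left (pow_ne_zero _ (neg_ne_zero.2 one_ne_zero))

theorem cm_sim (h : CyclicModule p N r ρ χ ω σ) (s : Γ) (u v : V) :
    ω (ρ s u) (ρ s v) = (χ ^ N) s * ω u v := by
  rw [h.similitude]
  rfl

theorem cm_symm (h : CyclicModule p N r ρ χ ω σ) {K : Type} [Field K] [Algebra k K]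
    (x y : K ⊗[k] V) : bcb K ω y x = (-1) ^ N * bcb K ω x y := by
  induction x with
  | zero => simp only [map_zero, LinearMap.zero_apply, mul_zero]
  | add u u' hu hu' => simp only [map_add, LinearMap.add_apply, hu, hu', mul_add]
  | tmul a u =>
    induction y with
    | zero => simp only [map_zero, LinearMap.zero_apply, mul_zero]
    | add v v' hv hv' => simp only [map_add, LinearMap.add_apply, hv, hv', mul_add]
    | tmul b v =>
      rw [bcb_tmul, bcb_tmul, h.symm, Algebra.smul_def, Algebra.smul_def, map_mul, map_pow,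
        map_neg, map_one]
      ring

theorem cm_finrank (h : CyclicModule p N r ρ χ ω σ)
    {z₀ : AlgebraicClosure k} (hz₀ : IsPrimitiveRoot z₀ p) (j : (ZMod p)ˣ) :
    finrank (AlgebraicClosure k) (EE (σ.baseChange (AlgebraicClosure k)) z₀ j) = r :=
  h.cyclic.dim _ (ev_prim hz₀ j)

theorem cm_ne (h : CyclicModule p N r ρ χ ω σ) (hr : 3 ≤ r)
    {z₀ : AlgebraicClosure k} (hz₀ : IsPrimitiveRoot z₀ p) (j : (ZMod p)ˣ) :
    EE (σ.baseChange (AlgebraicClosure k)) z₀ j ≠ ⊥ := by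
  intro h0
  have h1 := cm_finrank h hz₀ j
  rw [h0, finrank_bot] at h1
  omega

theorem cm_comm (h : CyclicModule p N r ρ χ ω σ) {K : Type} [Field K] [Algebra k K] (s : Γ) :
    bcr ρ K s * σ.baseChange K = σ.baseChange K * bcr ρ K s := by
  change (ρ s).baseChange _ * _ = _ * (ρ s).baseChange _
  rw [← LinearMap.baseChange_mul, ← LinearMap.baseChange_mul, h.cyclic.comm s]

/-- **The slices are killed by the Lie algebra.** -/
theorem core (hp2 : p ≠ 2) (h : CyclicModule p N r ρ χ ω σ) (hr : 3 ≤ r)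
    (hirr : StronglyIrreducibleEigenspaces p ρ σ) (hF : NonscalarOnEigenspaces p ρ σ)
    {g : Γ} (hg : IsReflection p σ (ρ g)) (hgc : ActsCentrally τ g)
    {z₀ : AlgebraicClosure k} (hz₀ : IsPrimitiveRoot z₀ p) {ν : Type} [Fintype ν] [DecidableEq ν]
    (b : Basis ν k V) {n : ℕ} {f : MultilinearMap k (fun _ : Fin n => V) M}
    (hf : IsTateTensorWithValues ρ τ f) :
    ∃ Θ : Module.End (AlgebraicClosure k) (AlgebraicClosure k ⊗[k] V),
      (∀ j : (ZMod p)ˣ, ∀ u ∈ EE (σ.baseChange (AlgebraicClosure k)) z₀ j,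
        Θ u = cc ((-1 : AlgebraicClosure k) ^ N) j • u) ∧
      DD (bcr ρ (AlgebraicClosure k)) (bcc (χ ^ N) (AlgebraicClosure k))
        (fun j : (ZMod p)ˣ => EE (σ.baseChange (AlgebraicClosure k)) z₀ j) (fun j => -j)
        ((bcb (AlgebraicClosure k) ω).comp Θ) (TS (AlgebraicClosure k) b ρ f) ∧
      ∀ (i : (ZMod p)ˣ) (u w : AlgebraicClosure k ⊗[k] V),
        u ∈ EE (σ.baseChange (AlgebraicClosure k)) z₀ i →
        w ∈ EE (σ.baseChange (AlgebraicClosure k)) z₀ (-i) →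
        (bcb (AlgebraicClosure k) ω).comp Θ u w = 0 → ∀ μ : Dual k M,
        dF (sk ((bcb (AlgebraicClosure k) ω).comp Θ) u w)
          (bcm b (μ.compMultilinearMap f)) = 0 := by
  classical
  have hcyc := bc_cyc (AlgebraicClosure k) h.cyclic.cyc
  obtain ⟨Θ, hΘ, hΘ'⟩ := exists_Th hcyc hz₀ ((-1 : AlgebraicClosure k) ^ N)
  have hs : ((-1 : AlgebraicClosure k) ^ N) * (-1) ^ N = 1 := by
    rw [← mul_pow, neg_one_mul, neg_neg, one_pow]
  have hcomm : ∀ s, bcr ρ (AlgebraicClosure k) s * σ.baseChange (AlgebraicClosure k) =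
      σ.baseChange (AlgebraicClosure k) * bcr ρ (AlgebraicClosure k) s := fun s => cm_comm h s
  have hnd : ∀ u, (∀ v, bcb (AlgebraicClosure k) ω u v = 0) → u = 0 :=
    fun u hu => bcb_nondeg_left ω (cm_right h) h.nondeg u hu
  have hsym : ∀ u v, bcb (AlgebraicClosure k) ω v u = (-1) ^ N * bcb (AlgebraicClosure k) ω u v :=
    fun u v => cm_symm h u v
  have hisom : ∀ u v, bcb (AlgebraicClosure k) ω (σ.baseChange (AlgebraicClosure k) u)
      (σ.baseChange (AlgebraicClosure k) v) = bcb (AlgebraicClosure k) ω u v :=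
    fun u v => bcb_isom (AlgebraicClosure k) ω h.isom u v
  have hsim : ∀ s u v, bcb (AlgebraicClosure k) ω (bcr ρ (AlgebraicClosure k) s u)
      (bcr ρ (AlgebraicClosure k) s v) = bcc (χ ^ N) (AlgebraicClosure k) s *
        bcb (AlgebraicClosure k) ω u v := fun s u v => bcb_inv ρ (χ ^ N) ω (cm_sim h) s u v
  have D : DD (bcr ρ (AlgebraicClosure k)) (bcc (χ ^ N) (AlgebraicClosure k))
        (fun j : (ZMod p)ˣ => EE (σ.baseChange (AlgebraicClosure k)) z₀ j) (fun j => -j)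
        ((bcb (AlgebraicClosure k) ω).comp Θ) (TS (AlgebraicClosure k) b ρ f) :=
    mkDD hcyc hz₀ hcomm hp2 (bcb (AlgebraicClosure k) ω) hnd hs hsym hisom hsim hΘ hΘ' _
      (TS_tr (AlgebraicClosure k) b f)
  refine ⟨Θ, hΘ', D, fun i u w hu hw huw μ => ?_⟩
  obtain ⟨Δf, hΔf, hf⟩ := hf
  obtain ⟨Δc, hΔc, hc⟩ := hgc
  obtain ⟨ε, hε1, hε2, hε3⟩ := reflects (AlgebraicClosure k) h.cyclic.cyc hg (h.cyclic.comm g)
    hz₀ hp2
  have hRR : RR (bcr ρ (AlgebraicClosure k))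
      (fun j : (ZMod p)ˣ => EE (σ.baseChange (AlgebraicClosure k)) z₀ j) g ε (2 * p) :=
    ⟨Nat.mul_pos two_pos hp.out.pos, hε1, fun j => (hε2 j).1, fun j => (hε2 j).2.1,
      fun j => (hε2 j).2.2, hε3⟩
  let Δ := (Δf ⊓ Δc).normalCore
  have hΔn : Δ.Normal := Subgroup.normalCore_normal _
  have hΔfi : Δ.FiniteIndex := inferInstance
  have hle : ∀ s ∈ Δ, s ∈ Δf ∧ s ∈ Δc := fun s hs => Subgroup.normalCore_le _ hs
  have hfix := TS_fix (AlgebraicClosure k) b (f := f) hΔn (fun s hs => hf s (hle s hs).1)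
    (fun s hs => hc s (hle s hs).2)
  have hmem := sk_mem D hRR i (by rw [cm_finrank h hz₀ i]; exact hr)
    (cov_SI h.cyclic.comm hirr hz₀ i (cm_ne h hr hz₀ i)) hΔn hΔfi hfix
    (hF _ (ev_prim hz₀ i)) hu hw huw
  exact hmem.2.2 _ (TS_self (AlgebraicClosure k) b f μ)

end

end

end Pool.Agent.Y128.CX
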