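import Pool.Agent.Y128.CC.Defs

/-!
# Tate classes on the products of the powers of cyclic coverings with other varieties: definitions
-/

namespace Pool.Agent.Y128.CX

open Module TensorProduct Polynomial Pool.Agent.Y128.SJ Pool.Agent.Y128.CC

variable {k V M Γ : Type} [Field k] [AddCommGroup V] [Module k V] [AddCommGroup M] [Module k M]
  [Group Γ]

/-- Standard properties of the dual `V` of the part of the cohomology in degree `N`, on which the
automorphism has no invariants, of a variety with an automorphism of prime order `p`: with the action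
`ρ` of the Galois group `Γ`, the cyclotomic character `χ`, the form `ω` given by the cup product and
the automorphism `σ`. The form `ω` is nondegenerate, symmetric or alternating, multiplied by `χ ^ N`
under `ρ` and invariant under `σ`; `σ` commutes with `ρ`, and its eigenspaces have dimension `r`. -/
structure CyclicModule (p N r : ℕ) (ρ : Representation k Γ V) (χ : Γ →* k)
    (ω : V →ₗ[k] V →ₗ[k] k) (σ : Module.End k V) : Prop where
  nondeg : ∀ u, (∀ v, ω u v = 0) → u = 0
  symm : ∀ u v, ω v u = (-1) ^ N * ω u v
  similitude : ∀ s u v, ω (ρ s u) (ρ s v) = χ s ^ N * ω u v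
  isom : ∀ u v, ω (σ u) (σ v) = ω u v
  cyclic : Cyclic p r ρ σ

/-- A Tate class in `H ^ {⊗ n} ⊗ M`, `H` the dual of `V`, that is a form in `n` variables on `V` with
values in `M`, fixed by a subgroup of finite index of the Galois group: `f (s v) = s f(v)` for `s` in
this subgroup. -/
def IsTateTensorWithValues (ρ : Representation k Γ V) (τ : Representation k Γ M) {n : ℕ}
    (f : MultilinearMap k (fun _ : Fin n => V) M) : Prop :=
  ∃ Δ : Subgroup Γ, Δ.FiniteIndex ∧ ∀ s ∈ Δ, ∀ v : Fin n → V, f (fun l => ρ s (v l)) = τ s (f v)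

/-- The products of the forms `ω(σ ^ i u, v)`, the classes of the graphs of the powers of the
automorphism, over a partition of the `n = 2 m` variables into pairs, and of a Tate class `y` of `M`,
that is a subgroup of finite index acts on `y` through `χ ^ (N m)`. -/
def graphProductsWithValues (N : ℕ) (χ : Γ →* k) (ω : V →ₗ[k] V →ₗ[k] k) (σ : Module.End k V)
    (τ : Representation k Γ M) (n : ℕ) : Set (MultilinearMap k (fun _ : Fin n => V) M) :=
  {f | ∃ (m : ℕ) (e : Fin m × Fin 2 ≃ Fin n) (i : Fin m → ℕ) (y : M),
    (∃ Δ : Subgroup Γ, Δ.FiniteIndex ∧ ∀ s ∈ Δ, τ s y = χ s ^ (N * m) • y) ∧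
    ∀ v : Fin n → V, f v = (∏ l, ω ((σ ^ i l) (v (e (l, 0)))) (v (e (l, 1)))) • y}

/-- The action of `g` on `M` commutes with the action of a subgroup of finite index. -/
def ActsCentrally (τ : Representation k Γ M) (g : Γ) : Prop :=
  ∃ Δ : Subgroup Γ, Δ.FiniteIndex ∧ ∀ s ∈ Δ, τ g * τ s = τ s * τ g

end Pool.Agent.Y128.CX
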