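import Pool.Agent.Y128.CX.Defs2

/-!
# Invariants of a subgroup
-/

namespace Pool.Agent.Y128.CX

variable {k V M Γ : Type} [Field k] [AddCommGroup V] [Module k V] [AddCommGroup M] [Module k M]
  [Group Γ]

/-- A form in `n` variables on `V` with values in `M` (an element of `H ^ {⊗ n} ⊗ M`, `H` the dual of
`V`) is invariant under the subgroup `Δ`: `f (s v) = s f(v)` for `s` in `Δ`. -/
def IsInvariantUnder (ρ : Representation k Γ V) (τ : Representation k Γ M) (Δ : Subgroup Γ) {n : ℕ}
    (f : MultilinearMap k (fun _ : Fin n => V) M) : Prop :=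
  ∀ s ∈ Δ, ∀ v : Fin n → V, f (fun l => ρ s (v l)) = τ s (f v)

/-- The products of the forms `ω(σ ^ i u, v)`, the classes of the graphs of the powers of the
automorphism, over a partition of the `n = 2 m` variables into pairs, and of an element `y` of `M` on
which the subgroup `Δ` acts through `χ ^ (N m)`: an invariant of `Δ` in the Tate twist of `M`. -/
def graphProductsOver (N : ℕ) (χ : Γ →* k) (ω : V →ₗ[k] V →ₗ[k] k) (σ : Module.End k V)
    (τ : Representation k Γ M) (Δ : Subgroup Γ) (n : ℕ) :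
    Set (MultilinearMap k (fun _ : Fin n => V) M) :=
  {f | ∃ (m : ℕ) (e : Fin m × Fin 2 ≃ Fin n) (i : Fin m → ℕ) (y : M),
    (∀ s ∈ Δ, τ s y = χ s ^ (N * m) • y) ∧
    ∀ v : Fin n → V, f v = (∏ l, ω ((σ ^ i l) (v (e (l, 0)))) (v (e (l, 1)))) • y}

end Pool.Agent.Y128.CX
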