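import Pool.Agent.Y128.CX.All
import Pool.Agent.Y128.CX.Defs3

/-!
# Invariants of a subgroup
-/

set_option linter.unusedSectionVars false

namespace Pool.Agent.Y128.CX

open Module TensorProduct Polynomial Pool.Agent.Y128.CC Pool.Agent.Y128.SJ

noncomputable section

variable {p N r : ℕ} {k V M Γ : Type} [Field k] [CharZero k] [AddCommGroup V]
  [Module k V] [FiniteDimensional k V] [AddCommGroup M] [Module k M] [Group Γ]
  {ρ : Representation k Γ V} {χ : Γ →* k} {ω : V →ₗ[k] V →ₗ[k] k} {σ : Module.End k V}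
  {τ : Representation k Γ M}

/-- From the slices to the invariants. -/
theorem of_slices_over [FiniteDimensional k M] (h : CyclicModule p N r ρ χ ω σ) {n : ℕ}
    {f : MultilinearMap k (fun _ : Fin n => V) M} {Δ : Subgroup Γ}
    (hf : IsInvariantUnder ρ τ Δ f)
    (hsl : ∀ μ : Dual k M, μ.compMultilinearMap f ∈ Submodule.span k (graphProducts ω σ n)) :
    f ∈ Submodule.span k (graphProductsOver N χ ω σ τ Δ n) := by
  classical
  obtain ⟨P, hP1, hP2, hP3⟩ := exists_linearIndependent k (graphProducts ω σ n)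
  have hPfin : Finite P := hP3.finite
  have hPft : Fintype P := Fintype.ofFinite P
  let bM := Module.finBasis k M
  have hmem : ∀ m' : Dual k M, m'.compMultilinearMap f ∈ Submodule.span k (Set.range
      (Subtype.val : P → MultilinearMap k (fun _ : Fin n => V) k)) := by
    intro m'
    rw [Subtype.range_coe, hP2]
    exact hsl m'
  have hcoef : ∀ m' : Dual k M, ∃ c : P → k, m'.compMultilinearMap f = ∑ p, c p • p.1 := by
    intro m'
    obtain ⟨c, hc⟩ := (Submodule.mem_span_range_iff_exists_fun k).1 (hmem m')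
    exact ⟨c, hc.symm⟩
  choose c hc using hcoef
  let y : P → M := fun p => ∑ i, c (bM.coord i) p • bM i
  have hfy : f = ∑ p, ten p.1 (y p) := by
    refine MultilinearMap.ext fun v => ?_
    rw [msum_apply]
    conv_lhs => rw [← bM.sum_repr (f v)]
    have h1 : ∀ i, bM.repr (f v) i = ∑ p : P, c (bM.coord i) p * p.1 v := by
      intro i
      have h2 := congrArg (fun ψ : MultilinearMap k (fun _ : Fin n => V) k => ψ v) (hc (bM.coord i))
      change bM.coord i (f v) = (∑ p : P, c (bM.coord i) p • p.1) v at h2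
      rw [msum_apply] at h2
      exact h2
    have h2 : ∀ p : P, ten p.1 (y p) v = ∑ i, (c (bM.coord i) p * p.1 v) • bM i := by
      intro p
      rw [ten_apply, Finset.smul_sum]
      refine Finset.sum_congr rfl fun i _ => ?_
      rw [smul_smul, mul_comm]
    rw [Finset.sum_congr rfl (fun p _ => h2 p), Finset.sum_comm]
    refine Finset.sum_congr rfl fun i _ => ?_
    rw [h1, Finset.sum_smul]
  -- the coefficients are invariants
  have hy : ∀ (m : ℕ), n = 2 * m → ∀ (p : P), ∀ s ∈ Δ, τ s (y p) = χ s ^ (N * m) • y p := by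
    intro m hm p0 s hs
    have hsim : ∀ (p : P) (v : Fin n → V), p.1 (fun l => ρ s (v l)) = χ s ^ (N * m) * p.1 v := by
      intro p v
      obtain ⟨m', hm', h1⟩ := gp_sim h (hP1 p.2)
      have : m' = m := by omega
      subst this
      exact h1 s v
    have h1 : ∀ v : Fin n → V, ∑ p : P, p.1 v • (τ s (y p) - χ s ^ (N * m) • y p) = 0 := by
      intro v
      have h2 := hf s hs v
      rw [hfy, msum_apply, msum_apply, map_sum] at h2
      simp only [ten_apply, map_smul] at h2
      simp only [smul_sub, Finset.sum_sub_distrib]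
      rw [← h2, ← Finset.sum_sub_distrib]
      refine Finset.sum_eq_zero fun p _ => ?_
      rw [hsim, smul_smul, mul_comm, sub_self]
    have h3 : τ s (y p0) - χ s ^ (N * m) • y p0 = 0 := by
      refine (Module.forall_dual_apply_eq_zero_iff k _).1 fun m' => ?_
      have h4 : ∑ p : P, m' (τ s (y p) - χ s ^ (N * m) • y p) • p.1 = 0 := by
        refine MultilinearMap.ext fun v => ?_
        rw [msum_apply, MultilinearMap.zero_apply, ← map_zero m', ← h1 v, map_sum]
        refine Finset.sum_congr rfl fun p _ => ?_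
        rw [map_smul, MultilinearMap.smul_apply, smul_eq_mul, smul_eq_mul, mul_comm]
      exact (Fintype.linearIndependent_iff.1 hP3) _ h4 p0
    exact sub_eq_zero.1 h3
  rw [hfy]
  refine Submodule.sum_mem _ fun p _ => Submodule.subset_span ?_
  obtain ⟨m, hm, -⟩ := gp_sim h (hP1 p.2)
  obtain ⟨m', e, i, hp⟩ := hP1 p.2
  have hmm : m' = m := by
    have h1 := Fintype.card_congr e
    rw [Fintype.card_prod, Fintype.card_fin, Fintype.card_fin, Fintype.card_fin] at h1
    omega
  subst hmm
  refine ⟨m', e, i, y p, hy m' hm p, fun v => ?_⟩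
  rw [ten_apply, hp]

/-- The slope does not vanish. -/
theorem slope_ne' {N d : ℕ} (hN : 1 ≤ N) (hd : 3 ≤ d) (h : ¬(N = 2 ∧ d = 3)) :
    (coverRank N d : ℚ) - (-1) ^ N * (N + 1) ≠ 0 := by
  rcases Nat.lt_or_ge 1 N with h1 | h1
  · exact slope_ne h1 hd h
  · have h2 : N = 1 := le_antisymm h1 hN
    subst h2
    have h3 : (0 : ℚ) ≤ coverRank 1 d := Nat.cast_nonneg _
    intro h4
    push_cast at h4
    linarith

/-- **The invariants in the tensor powers of a cyclic covering times another motive.** -/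
theorem exact [hp : Fact p.Prime] [FiniteDimensional k M] {d : ℕ} (hp2 : p ≠ 2) (hN : 1 ≤ N)
    (hd : 3 ≤ d) (hr : 3 ≤ coverRank N d) (hNd : ¬(N = 2 ∧ d = 3))
    (h : CyclicModule p N (coverRank N d) ρ χ ω σ)
    (hH : HasHodgeSumsWithValues p (coverHodge p N d) ρ χ σ τ)
    (hirr : StronglyIrreducibleEigenspaces p ρ σ) (hF : NonscalarOnEigenspaces p ρ σ)
    {g : Γ} (hg : IsReflection p σ (ρ g)) (hgc : ActsCentrally τ g)
    {Δ : Subgroup Γ} (hΔ : Δ.FiniteIndex) {n : ℕ} {f : MultilinearMap k (fun _ : Fin n => V) M}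
    (hf : IsInvariantUnder ρ τ Δ f) :
    f ∈ Submodule.span k (graphProductsOver N χ ω σ τ Δ n) :=
  of_slices_over h hf fun μ => all_slices hp2 h hr (slope_ne' hN hd hNd) hH hirr hF hg hgc
    ⟨Δ, hΔ, hf⟩ μ

end

end Pool.Agent.Y128.CX
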