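import Pool.Agent.Y128.CX.Mem
import Pool.Agent.Y128.CX.Val

/-!
# Few factors
-/

set_option linter.unusedSectionVars false

namespace Pool.Agent.Y128.CX

open Module TensorProduct Polynomial Pool.Agent.H204R3.SP Pool.Agent.H204R3.GP Pool.Agent.H204R3.CM
  Pool.Agent.W529.Ta Pool.Agent.W522.U Pool.Agent.TH118.CR Pool.Agent.Y128.CC Pool.Agent.Y128.SJ

noncomputable section

variable {p N r : ℕ} [hp : Fact p.Prime] {k V M Γ : Type} [Field k] [CharZero k] [AddCommGroup V]
  [Module k V] [FiniteDimensional k V] [AddCommGroup M] [Module k M] [Group Γ]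
  {ρ : Representation k Γ V} {χ : Γ →* k} {ω : V →ₗ[k] V →ₗ[k] k} {σ : Module.End k V}
  {τ : Representation k Γ M}

/-- The slices of a Tate class with values, few variables. -/
theorem few_slices (hp2 : p ≠ 2) (h : CyclicModule p N r ρ χ ω σ) (hr : 3 ≤ r)
    (hirr : StronglyIrreducibleEigenspaces p ρ σ) (hF : NonscalarOnEigenspaces p ρ σ)
    {g : Γ} (hg : IsReflection p σ (ρ g)) (hgc : ActsCentrally τ g)
    {n : ℕ} (hn : n < r) {f : MultilinearMap k (fun _ : Fin n => V) M}
    (hf : IsTateTensorWithValues ρ τ f) (μ : Dual k M) :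
    μ.compMultilinearMap f ∈ Submodule.span k (graphProducts ω σ n) := by
  classical
  have : NeZero ((p : ℕ) : AlgebraicClosure k) := ⟨Nat.cast_ne_zero.2 hp.out.ne_zero⟩
  obtain ⟨z₀, hz₀⟩ := HasEnoughRootsOfUnity.exists_primitiveRoot (AlgebraicClosure k) p
  obtain ⟨Θ, hΘ, D, hk⟩ := core hp2 h hr hirr hF hg hgc hz₀ (Module.finBasis k V) hf
  obtain ⟨n', F, α, -, -⟩ := exists_FF D 1
  refine slice_mem h hz₀ (Module.finBasis k V) (μ.compMultilinearMap f) hΘ D F
    (fun i u w hu hw huw => hk i u w hu hw huw μ) fun J hJ x => ?_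
  refine F.balanced_of_lt _ (fun i u w hu hw huw => hk i u w hu hw huw μ) (fun i => ?_) hJ x
  have h1 := card_cls D F i
  rw [cm_finrank h hz₀ i] at h1
  rw [Fintype.card_fin]
  exact lt_of_lt_of_le hn h1

/-- **Few factors.** -/
theorem few [FiniteDimensional k M] (hp2 : p ≠ 2) (h : CyclicModule p N r ρ χ ω σ) (hr : 3 ≤ r)
    (hirr : StronglyIrreducibleEigenspaces p ρ σ) (hF : NonscalarOnEigenspaces p ρ σ)
    {g : Γ} (hg : IsReflection p σ (ρ g)) (hgc : ActsCentrally τ g)
    {n : ℕ} (hn : n < r) {f : MultilinearMap k (fun _ : Fin n => V) M}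
    (hf : IsTateTensorWithValues ρ τ f) :
    f ∈ Submodule.span k (graphProductsWithValues N χ ω σ τ n) :=
  of_slices h hf fun μ => few_slices hp2 h hr hirr hF hg hgc hn hf μ

end

end Pool.Agent.Y128.CX
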