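import Pool.Agent.Y128.CX.Full
import Pool.Agent.Y128.RT.Fft

/-!
# Forms killed by general linear Lie algebras
-/

set_option linter.unusedSectionVars false

namespace Pool.Agent.Y128.CX

open Module Pool.Agent.H204R3.SP Pool.Agent.H204R3.GP Pool.Agent.H204R3.CM Pool.Agent.W529.Ta
  Pool.Agent.W522.U Pool.Agent.TH118.CR Pool.Agent.Y128.CC

noncomputable section

variable {K : Type} [Field K] [CharZero K] {X : Type} [AddCommGroup X] [Module K X]
  {I : Type} {ι : Type} [Fintype ι] [DecidableEq ι] {κ : Type} [Fintype κ] [DecidableEq κ]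

/-- A basis adapted to the subspaces `E i` and the alternating form. -/
structure FF (E : I → Submodule K X) (st : I → I) (ω : X →ₗ[K] X →ₗ[K] K) (ι : Type)
    [Fintype ι] [DecidableEq ι] where
  e : Basis ι K X
  inv : ι → ι
  cls : ι → I
  inv_inv : ∀ x, inv (inv x) = x
  cls_inv : ∀ x, cls (inv x) = st (cls x)
  mem : ∀ x, e x ∈ E (cls x)
  zero : ∀ x y, y ≠ inv x → ω (e x) (e y) = 0
  ne : ∀ x, ω (e x) (e (inv x)) ≠ 0
  skew : ∀ u v, ω u v = -ω v u
  st_ne : ∀ i, st i ≠ i

variable {E : I → Submodule K X} {st : I → I} {ω : X →ₗ[K] X →ₗ[K] K} (F : FF E st ω ι)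

namespace FF

/-- The values of the form. -/
def jv (x : ι) : K := ω (F.e x) (F.e (F.inv x))

theorem jv_inv (x : ι) : F.jv (F.inv x) = -F.jv x := by
  unfold jv
  rw [F.inv_inv, F.skew]

theorem inv_ne (x : ι) : F.inv x ≠ x := by
  intro h
  apply F.st_ne (F.cls x)
  rw [← F.cls_inv, h]

theorem om_JJ (x y : ι) : ω (F.e x) (F.e y) = JJ F.inv F.jv x y := by
  unfold JJ
  split_ifs with h
  · rw [h]
    rfl
  · exact F.zero x y h

/-- The number of occurrences. -/
def cnt (J : κ → ι) (b : ι) : ℕ := (Finset.univ.filter fun k => J k = b).card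

theorem upd (ψ : MultilinearMap K (fun _ : κ => X) K) (J : κ → ι) (k : κ) (z : ι) :
    ψ (fun l => F.e (Function.update J k z l)) =
      ψ (Function.update (fun k => F.e (J k)) k (F.e z)) := by
  congr 1
  funext l
  by_cases hl : l = k
  · subst hl
    rw [Function.update_self, Function.update_self]
  · rw [Function.update_of_ne hl, Function.update_of_ne hl]

/-- The relation satisfied by the coefficients. -/
theorem rel (ψ : MultilinearMap K (fun _ : κ => X) K) {b c : ι}
    (h : dF (sk ω (F.e b) (F.e c)) ψ = 0) (J : κ → ι) :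
    ∑ k, (JJ F.inv F.jv b (J k) * ψ (fun l => F.e (Function.update J k c l)) +
      JJ F.inv F.jv c (J k) * ψ (fun l => F.e (Function.update J k b l))) = 0 := by
  have h3 := congrArg (fun ψ : MultilinearMap K (fun _ : κ => X) K => ψ (fun k => F.e (J k))) h
  rw [MultilinearMap.zero_apply, dF_apply] at h3
  rw [← h3]
  refine Finset.sum_congr rfl fun k _ => ?_
  rw [sk_apply, F.om_JJ, F.om_JJ, MultilinearMap.map_update_add, MultilinearMap.map_update_smul,
    MultilinearMap.map_update_smul, smul_eq_mul, smul_eq_mul, F.upd, F.upd]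

/-- A diagonal operator. -/
theorem dF_diag (ψ : MultilinearMap K (fun _ : κ => X) K) {Y : Module.End K X} {lam : ι → K}
    (hY : ∀ y, Y (F.e y) = lam y • F.e y) (J : κ → ι) :
    dF Y ψ (fun k => F.e (J k)) = (∑ k, lam (J k)) * ψ (fun k => F.e (J k)) := by
  rw [dF_apply, Finset.sum_mul]
  refine Finset.sum_congr rfl fun k _ => ?_
  rw [hY, MultilinearMap.map_update_smul, smul_eq_mul]
  congr 2
  exact Function.update_eq_self k (fun k => F.e (J k))

theorem sk_diag (b y : ι) : sk ω (F.e b) ((F.jv b)⁻¹ • F.e (F.inv b)) (F.e y) =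
    ((if y = F.inv b then (1 : K) else 0) - (if y = b then 1 else 0)) • F.e y := by
  have h0 : F.jv b ≠ 0 := F.ne b
  rw [sk_apply, map_smul, LinearMap.smul_apply, smul_eq_mul]
  by_cases h1 : y = F.inv b
  · subst h1
    rw [if_pos rfl, if_neg (F.inv_ne b), sub_zero, one_smul, F.zero (F.inv b) (F.inv b) (by
      rw [F.inv_inv]; exact F.inv_ne b), mul_zero, zero_smul, add_zero, smul_smul]
    change (F.jv b * (F.jv b)⁻¹) • _ = _
    rw [mul_inv_cancel₀ h0, one_smul]
  · by_cases h2 : y = b
    · subst h2
      rw [if_neg h1, if_pos rfl, zero_sub, neg_one_smul, F.zero y y (F.inv_ne y).symm, zero_smul,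
        zero_add]
      have h3 : ω (F.e (F.inv y)) (F.e y) = -F.jv y := by
        rw [F.skew]
        rfl
      rw [h3, mul_neg, inv_mul_cancel₀ h0, neg_one_smul]
    · rw [if_neg h1, if_neg h2, sub_zero, zero_smul, F.zero b y h1, F.zero (F.inv b) y (by
        rw [F.inv_inv]; exact h2), mul_zero, zero_smul, zero_smul, add_zero]

theorem sum_cnt (J : κ → ι) (b : ι) :
    ∑ k, ((if J k = F.inv b then (1 : K) else 0) - (if J k = b then 1 else 0)) =
      (cnt J (F.inv b) : K) - cnt J b := by
  rw [Finset.sum_sub_distrib, Finset.sum_boole, Finset.sum_boole]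
  rfl

/-- The differences of the numbers of occurrences are equal in a class. -/
theorem diff_eq (ψ : MultilinearMap K (fun _ : κ => X) K)
    (h : ∀ (i : I) (u w : X), u ∈ E i → w ∈ E (st i) → ω u w = 0 → dF (sk ω u w) ψ = 0)
    {J : κ → ι} (hJ : ψ (fun k => F.e (J k)) ≠ 0) {b c : ι} (hbc : F.cls b = F.cls c) :
    (cnt J b : ℤ) - cnt J (F.inv b) = cnt J c - cnt J (F.inv c) := by
  by_cases hb : b = c
  · rw [hb]
  have hinvne : F.inv c ≠ F.inv b := fun h1 => hb (by rw [← F.inv_inv b, ← h1, F.inv_inv])
  set w1 := (F.jv b)⁻¹ • F.e (F.inv b) with hw1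
  set w2 := (F.jv c)⁻¹ • F.e (F.inv c) with hw2
  have h0b : F.jv b ≠ 0 := F.ne b
  have h0c : F.jv c ≠ 0 := F.ne c
  have m1 : F.e b ∈ E (F.cls b) := F.mem b
  have m2 : F.e c ∈ E (F.cls b) := by rw [hbc]; exact F.mem c
  have m3 : w1 ∈ E (st (F.cls b)) := by
    rw [hw1, ← F.cls_inv]
    exact Submodule.smul_mem _ _ (F.mem _)
  have m4 : w2 ∈ E (st (F.cls b)) := by
    rw [hw2, hbc, ← F.cls_inv]
    exact Submodule.smul_mem _ _ (F.mem _)
  have o1 : ω (F.e b) w1 = 1 := by
    rw [hw1, map_smul, smul_eq_mul]
    exact inv_mul_cancel₀ h0b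
  have o2 : ω (F.e c) w2 = 1 := by
    rw [hw2, map_smul, smul_eq_mul]
    exact inv_mul_cancel₀ h0c
  have o3 : ω (F.e b) w2 = 0 := by
    rw [hw2, map_smul, F.zero b _ hinvne, smul_zero]
  have o4 : ω (F.e c) w1 = 0 := by
    rw [hw1, map_smul, F.zero c _ hinvne.symm, smul_zero]
  have k1 := h (F.cls b) (F.e b + F.e c) (w1 - w2) (Submodule.add_mem _ m1 m2)
    (Submodule.sub_mem _ m3 m4) (by
      rw [map_add, LinearMap.add_apply, map_sub, map_sub, o1, o2, o3, o4]
      ring)
  have k2 := h (F.cls b) (F.e b) w2 m1 m4 o3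
  have k3 := h (F.cls b) (F.e c) w1 m2 m3 o4
  have hexp : sk ω (F.e b) w1 + (-1 : K) • sk ω (F.e c) w2 =
      sk ω (F.e b + F.e c) (w1 - w2) + (sk ω (F.e b) w2 + (-1 : K) • sk ω (F.e c) w1) := by
    ext v
    simp only [LinearMap.add_apply, LinearMap.smul_apply, sk_apply, map_add, map_sub,
      LinearMap.sub_apply]
    module
  have k4 : dF (sk ω (F.e b) w1 + (-1 : K) • sk ω (F.e c) w2) ψ = 0 := by
    rw [hexp, dF_add, dF_add, dF_smul, k1, k2, k3, smul_zero, add_zero, add_zero]
  rw [dF_add, dF_smul] at k4
  have k5 := congrArg (fun ψ : MultilinearMap K (fun _ : κ => X) K => ψ (fun k => F.e (J k))) k4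
  rw [MultilinearMap.add_apply, MultilinearMap.smul_apply, MultilinearMap.zero_apply, hw1, hw2,
    F.dF_diag ψ (F.sk_diag b), F.dF_diag ψ (F.sk_diag c), F.sum_cnt, F.sum_cnt, smul_eq_mul] at k5
  have k6 : (((cnt J (F.inv b) : K) - cnt J b) - ((cnt J (F.inv c) : K) - cnt J c)) *
      ψ (fun k => F.e (J k)) = 0 := by
    linear_combination k5
  have k7 := (mul_eq_zero.1 k6).resolve_right hJ
  have k8 : (((cnt J (F.inv b) : ℤ) - cnt J b - ((cnt J (F.inv c) : ℤ) - cnt J c) : ℤ) : K) = 0 := by
    push_cast
    exact k7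
  have k9 := Int.cast_eq_zero.1 k8
  omega

theorem sum_cnt_card (J : κ → ι) : Fintype.card κ = ∑ a : ι, cnt J a := by
  rw [← Finset.card_univ]
  exact Finset.card_eq_sum_card_fiberwise (fun _ _ => Finset.mem_univ _)

open scoped Classical in
/-- If there are few variables then the numbers of occurrences of `b` and `inv b` are equal. -/
theorem balanced_of_lt (ψ : MultilinearMap K (fun _ : κ => X) K)
    (h : ∀ (i : I) (u w : X), u ∈ E i → w ∈ E (st i) → ω u w = 0 → dF (sk ω u w) ψ = 0)
    (hcard : ∀ i, Fintype.card κ < (Finset.univ.filter fun x => F.cls x = i).card)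
    {J : κ → ι} (hJ : ψ (fun k => F.e (J k)) ≠ 0) (b : ι) : cnt J b = cnt J (F.inv b) := by
  have key : ∀ b, ¬ cnt J (F.inv b) < cnt J b := by
    intro b hlt
    have h1 : ∀ c ∈ Finset.univ.filter (fun x => F.cls x = F.cls b), 1 ≤ cnt J c := by
      intro c hc
      have h2 := F.diff_eq ψ h hJ (Finset.mem_filter.1 hc).2
      omega
    have h2 : (Finset.univ.filter (fun x => F.cls x = F.cls b)).card ≤
        ∑ a ∈ Finset.univ.filter (fun x => F.cls x = F.cls b), cnt J a := by
      have h5 := Finset.card_nsmul_le_sum _ _ _ h1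
      rw [smul_eq_mul, mul_one] at h5
      exact h5
    have h3 : ∑ a ∈ Finset.univ.filter (fun x => F.cls x = F.cls b), cnt J a ≤
        Fintype.card κ := by
      rw [sum_cnt_card J]
      exact Finset.sum_le_univ_sum_of_nonneg (fun a => Nat.zero_le _)
    exact absurd (hcard (F.cls b)) (not_lt.2 (h2.trans h3))
  have h1 := key b
  have h2 := key (F.inv b)
  rw [F.inv_inv] at h2
  omega

/-- The component of the form at a class. -/
def om (i : I) : X →ₗ[K] X →ₗ[K] K := by
  classical
  exact ω.comp (F.e.constr K (fun x => if F.cls x = i then F.e x else 0))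

open scoped Classical in
theorem om_e (i : I) (x y : ι) : F.om i (F.e x) (F.e y) =
    if F.cls x = i then JJ F.inv F.jv x y else 0 := by
  unfold om
  rw [LinearMap.comp_apply, Basis.constr_basis]
  split_ifs with h
  · exact F.om_JJ x y
  · rw [map_zero, LinearMap.zero_apply]

/-- The products of the components over matchings. -/
def PP (κ : Type) [Fintype κ] [DecidableEq κ] : Set (MultilinearMap K (fun _ : κ => X) K) :=
  {φ | ∃ (m : ℕ) (e : Fin m × Fin 2 ≃ κ) (c : Fin m → I),
    φ = (prodMap (fun l => bil2 (F.om (c l)))).domDomCongr e}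

/-- **The first fundamental theorem.** -/
theorem fft_even {m : ℕ} (hm : Fintype.card κ = 2 * m) (ψ : MultilinearMap K (fun _ : κ => X) K)
    (h : ∀ (i : I) (u w : X), u ∈ E i → w ∈ E (st i) → ω u w = 0 → dF (sk ω u w) ψ = 0)
    (hb : ∀ J : κ → ι, ψ (fun k => F.e (J k)) ≠ 0 → ∀ b, cnt J b = cnt J (F.inv b)) :
    ψ ∈ Submodule.span K (F.PP κ) := by
  classical
  have hcls : ∀ x y, F.cls x = F.cls y → F.cls (F.inv x) = F.cls (F.inv y) := by
    intro x y h
    rw [F.cls_inv, F.cls_inv, h]
  -- all relations
  have hrel : ∀ b c, F.cls (F.inv b) = F.cls c → ∀ J : κ → ι,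
      ∑ k, (JJ F.inv F.jv b (J k) * ψ (fun l => F.e (Function.update J k c l)) +
        JJ F.inv F.jv c (J k) * ψ (fun l => F.e (Function.update J k b l))) = 0 := by
    intro b c hbc J
    by_cases hc : c = F.inv b
    · subst hc
      have h2 : ∀ k, JJ F.inv F.jv b (J k) *
          ψ (fun l => F.e (Function.update J k (F.inv b) l)) +
          JJ F.inv F.jv (F.inv b) (J k) * ψ (fun l => F.e (Function.update J k b l)) =
          ((if J k = F.inv b then 1 else 0) - (if J k = b then 1 else 0)) *
            (F.jv b * ψ (fun l => F.e (J l))) := by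
        intro k
        unfold JJ
        rw [F.inv_inv, F.jv_inv]
        by_cases h3 : J k = F.inv b
        · have h4 : J k ≠ b := by
            rw [h3]
            exact F.inv_ne b
          rw [if_pos h3, if_neg h4, if_pos h3, if_neg h4, ← h3, Function.update_eq_self]
          ring
        · by_cases h4 : J k = b
          · rw [if_neg h3, if_pos h4, if_neg h3, if_pos h4]
            have h5 : Function.update J k b = J := by
              rw [← h4, Function.update_eq_self]
            rw [h5]
            ring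
          · rw [if_neg h3, if_neg h4, if_neg h3, if_neg h4]
            ring
      rw [Finset.sum_congr rfl (fun k _ => h2 k), ← Finset.sum_mul, F.sum_cnt]
      by_cases h0 : ψ (fun l => F.e (J l)) = 0
      · rw [h0, mul_zero, mul_zero]
      · rw [hb J h0 b, sub_self, zero_mul]
    · refine F.rel ψ (h (F.cls b) _ _ (F.mem b) ?_ (F.zero b c hc)) J
      rw [← F.cls_inv, hbc]
      exact F.mem c
  let coef : MultilinearMap K (fun _ : κ => X) K →ₗ[K] ((κ → ι) → K) :=
    { toFun := fun φ J => φ (fun k => F.e (J k))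
      map_add' := fun _ _ => rfl
      map_smul' := fun _ _ => rfl }
  have hinj : Function.Injective coef := fun φ φ' h =>
    Basis.ext_multilinear (fun _ => F.e) fun J => congrFun h J
  let G : (κ → I) → ((κ → ι) → K) := fun t J =>
    if (fun k => F.cls (J k)) = t then coef ψ J else 0
  have hGt : ∀ t, G t ∈ InvG F.cls F.inv F.jv κ t := by
    intro t
    refine ⟨fun b c hbc J => ?_, fun J hJ k => ?_⟩
    · have htype : ∀ (k : κ) (z : ι), F.cls (J k) = F.cls z →
          (fun l => F.cls (Function.update J k z l)) = fun l => F.cls (J l) := by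
        intro k z hz
        funext l
        by_cases hl : l = k
        · subst hl
          rw [Function.update_self, hz]
        · rw [Function.update_of_ne hl]
      have h1 : ∀ k, JJ F.inv F.jv b (J k) * G t (Function.update J k c) +
          JJ F.inv F.jv c (J k) * G t (Function.update J k b) =
          if (fun k => F.cls (J k)) = t then
            JJ F.inv F.jv b (J k) * coef ψ (Function.update J k c) +
            JJ F.inv F.jv c (J k) * coef ψ (Function.update J k b) else 0 := by
        intro k
        have e1 : JJ F.inv F.jv b (J k) * G t (Function.update J k c) =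
            if (fun k => F.cls (J k)) = t then JJ F.inv F.jv b (J k) *
              coef ψ (Function.update J k c) else 0 := by
          by_cases h : J k = F.inv b
          · have h2 := htype k c (by rw [h, hbc])
            simp only [G]
            rw [h2]
            split_ifs
            · rfl
            · rw [mul_zero]
          · have h2 : JJ F.inv F.jv b (J k) = 0 := by
              unfold JJ
              rw [if_neg h]
            rw [h2, zero_mul, zero_mul]
            split_ifs <;> rfl
        have e2 : JJ F.inv F.jv c (J k) * G t (Function.update J k b) =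
            if (fun k => F.cls (J k)) = t then JJ F.inv F.jv c (J k) *
              coef ψ (Function.update J k b) else 0 := by
          by_cases h : J k = F.inv c
          · have h2 := htype k b (by
              rw [h, ← hcls _ _ hbc, F.inv_inv])
            simp only [G]
            rw [h2]
            split_ifs
            · rfl
            · rw [mul_zero]
          · have h2 : JJ F.inv F.jv c (J k) = 0 := by
              unfold JJ
              rw [if_neg h]
            rw [h2, zero_mul, zero_mul]
            split_ifs <;> rfl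
        rw [e1, e2]
        split_ifs
        · rfl
        · rw [add_zero]
      rw [Finset.sum_congr rfl (fun k _ => h1 k)]
      by_cases hJ : (fun k => F.cls (J k)) = t
      · simp only [if_pos hJ]
        exact hrel b c hbc J
      · simp only [if_neg hJ]
        exact Finset.sum_const_zero
    · by_contra h
      apply hJ
      simp only [G]
      rw [if_neg]
      intro h2
      exact h (congrFun h2 k)
  -- the types
  have h1 : coef ψ ∈ MatG F.cls F.inv F.jv κ m := by
    let S : Finset (κ → I) := Finset.univ.image (fun (t : κ → ι) k => F.cls (t k))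
    have hF : coef ψ = ∑ τ ∈ S, G τ := by
      funext J
      rw [Finset.sum_apply, Finset.sum_eq_single (fun k => F.cls (J k))]
      · simp only [G]
        rw [if_pos trivial]
      · intro τ hτ hne
        simp only [G]
        rw [if_neg]
        intro h2
        exact hne h2.symm
      · intro h2
        exact absurd (Finset.mem_image_of_mem _ (Finset.mem_univ J)) h2
    rw [hF]
    exact Submodule.sum_mem _ fun τ _ => fftG F.inv_inv F.jv_inv F.ne hcls m κ hm _ (hGt _)
  have h3 : MatG F.cls F.inv F.jv κ m ≤ (Submodule.span K (F.PP κ)).map coef := by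
    unfold MatG
    rw [Submodule.span_le]
    rintro _ ⟨σ, c, rfl⟩
    refine ⟨(prodMap (fun l => bil2 (F.om (c l)))).domDomCongr σ,
      Submodule.subset_span ⟨m, σ, c, rfl⟩, ?_⟩
    funext J
    change (prodMap (fun l => bil2 (F.om (c l)))).domDomCongr σ (fun k => F.e (J k)) = _
    rw [MultilinearMap.domDomCongr_apply, prodMap_apply]
    exact Finset.prod_congr rfl fun s _ => F.om_e _ _ _
  obtain ⟨φ', hφ', hφφ⟩ := h3 h1
  rw [← hinj hφφ]
  exact hφ'

/-- The number of variables is even. -/
theorem fft_odd (hodd : Odd (Fintype.card κ)) (ψ : MultilinearMap K (fun _ : κ => X) K)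
    (hb : ∀ J : κ → ι, ψ (fun k => F.e (J k)) ≠ 0 → ∀ b, cnt J b = cnt J (F.inv b)) : ψ = 0 := by
  refine Basis.ext_multilinear (fun _ => F.e) fun J => ?_
  rw [MultilinearMap.zero_apply]
  by_contra hne
  have h1 := sum_cnt_card J
  have h2 : ∑ a : ι, ((cnt J a : ℕ) : ZMod 2) = 0 := by
    refine Finset.sum_involution (fun a _ => F.inv a) (fun a _ => ?_) (fun a _ _ => F.inv_ne a)
      (fun a _ => Finset.mem_univ _) (fun a _ => F.inv_inv a)
    rw [← hb J hne a]
    exact CharTwo.add_self_eq_zero _
  rw [← Nat.cast_sum, ← h1] at h2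
  rw [ZMod.natCast_eq_zero_iff] at h2
  exact (Nat.not_even_iff_odd.2 hodd) (even_iff_two_dvd.2 h2)

/-- **The first fundamental theorem**, all numbers of variables. -/
theorem fft (ψ : MultilinearMap K (fun _ : κ => X) K)
    (h : ∀ (i : I) (u w : X), u ∈ E i → w ∈ E (st i) → ω u w = 0 → dF (sk ω u w) ψ = 0)
    (hb : ∀ J : κ → ι, ψ (fun k => F.e (J k)) ≠ 0 → ∀ b, cnt J b = cnt J (F.inv b)) :
    ψ ∈ Submodule.span K (F.PP κ) := by
  rcases Nat.even_or_odd (Fintype.card κ) with h1 | h1
  · obtain ⟨m, hm⟩ := h1
    exact F.fft_even (m := m) (by omega) ψ h hb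
  · rw [F.fft_odd h1 ψ hb]
    exact Submodule.zero_mem _

end FF

end

end Pool.Agent.Y128.CX
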