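import Pool.Agent.Y128.CX.Gen
import Pool.Agent.Y128.CC.Bil
import Pool.Agent.W522.U.B4

/-!
# Adapted bases
-/

set_option linter.unusedSectionVars false

namespace Pool.Agent.Y128.CX

open Module Polynomial Pool.Agent.H204R3.SP Pool.Agent.H204R3.GP Pool.Agent.H204R3.CM
  Pool.Agent.W529.Ta Pool.Agent.W522.U Pool.Agent.TH118.CR Pool.Agent.Y128.CC Pool.Agent.Y128.SJ

noncomputable section

section

variable {K : Type} [Field K] [CharZero K] {X : Type} [AddCommGroup X] [Module K X]
  {Γ : Type} [Group Γ] {I : Type} {κ : Type} [Fintype κ] [DecidableEq κ]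
  {R : Representation K Γ X} {χ : Γ →* K} {E : I → Submodule K X} {st : I → I}
  {ω : X →ₗ[K] X →ₗ[K] K} {T : Set (MultilinearMap K (fun _ : κ => X) K)}
  (D : DD R χ E st ω T)

/-- Linear maps restrict to the generalised eigenspaces of a stable subspace. -/
theorem le_gen [IsAlgClosed K] [FiniteDimensional K X] (A : Module.End K X) (U : Submodule K X)
    (hU : ∀ u ∈ U, A u ∈ U) : U ≤ ⨆ a, (U ⊓ Module.End.maxGenEigenspace A a) := by
  let A' : Module.End K U := A.restrict hU
  intro u hu
  have h5 : (⟨u, hu⟩ : U) ∈ ⨆ a, Module.End.maxGenEigenspace A' a := by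
    rw [Module.End.iSup_maxGenEigenspace_eq_top]
    trivial
  have h6 := Submodule.mem_map_of_mem (f := U.subtype) h5
  rw [Submodule.map_iSup] at h6
  have hpow : ∀ (a : K) (k : ℕ) (v : U), ((((A' - a • (1 : Module.End K U)) ^ k) v : U) : X) =
      ((A - a • (1 : Module.End K X)) ^ k) (v : X) := by
    intro a k
    induction k with
    | zero => intro v; rfl
    | succ k ih =>
      intro v
      rw [pow_succ, Module.End.mul_apply, ih, pow_succ, Module.End.mul_apply]
      rfl
  have h7 : ⨆ a, (Module.End.maxGenEigenspace A' a).map U.subtype ≤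
      ⨆ a, (U ⊓ Module.End.maxGenEigenspace A a) := by
    refine iSup_mono fun a => ?_
    rintro _ ⟨v, hv, rfl⟩
    refine ⟨v.2, ?_⟩
    rw [SetLike.mem_coe, Module.End.mem_maxGenEigenspace] at hv ⊢
    obtain ⟨k, hk⟩ := hv
    refine ⟨k, ?_⟩
    change ((A - a • (1 : Module.End K X)) ^ k) (v : X) = 0
    rw [← hpow, hk, ZeroMemClass.coe_zero]
  exact h7 h6

theorem chi_ne' (χ : Γ →* K) (γ : Γ) : χ γ ≠ 0 := by
  intro h0
  have h1 : χ γ * χ γ⁻¹ = 1 := by rw [← map_mul, mul_inv_cancel, map_one]
  rw [h0, zero_mul] at h1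
  exact zero_ne_one h1

include D in
theorem exists_FF [IsAlgClosed K] [FiniteDimensional K X] (γ : Γ) :
    ∃ (n : ℕ) (F : FF E st ω (Fin n ⊕ Fin n)) (α : Fin n ⊕ Fin n → K),
      (∀ x, F.e x ∈ Module.End.maxGenEigenspace (R γ) (α x)) ∧
      ∀ x, α x * α (F.inv x) = χ γ := by
  have key : ∀ (x y : X) (a b : K), x ∈ Module.End.maxGenEigenspace (R γ) a →
      y ∈ Module.End.maxGenEigenspace (R γ) b → ω x y ≠ 0 → a * b = χ γ := by
    intro x y a b hx hy h0
    have h1 := gen_eig (bil2 ω) (R γ) (χ γ) (fun v => by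
      rw [bil2_apply, bil2_apply]
      exact D.sim γ _ _) ![a, b] ![x, y] (by
      intro k
      fin_cases k
      · exact hx
      · exact hy) (by
      rw [bil2_apply]
      exact h0)
    rw [h1, Fin.prod_univ_two]
    rfl
  let F : I × K → Submodule K X := fun c => E c.1 ⊓ Module.End.maxGenEigenspace (R γ) c.2
  have hFF : ∀ c d, d ≠ (st c.1, χ γ / c.2) → ∀ u ∈ F c, ∀ v ∈ F d, ω u v = 0 := by
    rintro c d hd u ⟨hu1, hu2⟩ v ⟨hv1, hv2⟩
    by_cases h1 : d.1 = st c.1
    · by_contra h2
      have h3 := key _ _ _ _ hu2 hv2 h2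
      apply hd
      refine Prod.ext h1 ?_
      change d.2 = χ γ / c.2
      have h4 : c.2 ≠ 0 := by
        intro h5
        rw [h5, zero_mul] at h3
        exact chi_ne' χ γ h3.symm
      rw [← h3]
      field_simp
    · exact D.orth _ _ h1 u hu1 v hv1
  obtain ⟨n, e, lab', h1, h2, h3, h4⟩ := exists_sb ω D.skew D.alt F
    (fun c => (st c.1, χ γ / c.2)) (fun c => by
      refine Prod.ext (D.st_st _) ?_
      change χ γ / (χ γ / c.2) = c.2
      by_cases h : c.2 = 0
      · rw [h, div_zero, div_zero]
      · have := chi_ne' χ γ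
        field_simp) hFF D.nd (by
      rw [eq_top_iff, ← D.top, iSup_le_iff]
      intro i
      refine (le_gen (R γ) (E i) (D.Est i γ)).trans (iSup_le fun a => ?_)
      exact le_iSup F (i, a))
  refine ⟨n, ⟨e, Sum.swap, fun x => (lab' x).1, Sum.swap_swap, fun x => congrArg Prod.fst (h2 x),
    fun x => (h1 x).1, h3, h4, D.skew, D.st_ne⟩, fun x => (lab' x).2, fun x => (h1 x).2, fun x => ?_⟩
  exact key (e x) (e x.swap) _ _ (h1 x).2 (h1 x.swap).2 (h4 x)

include D in
/-- Coordinates of the vectors in `E i`. -/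
theorem repr_zero {ι : Type} [Fintype ι] [DecidableEq ι] (F : FF E st ω ι) {i : I} {u : X}
    (hu : u ∈ E i) {x : ι} (hx : F.cls x ≠ i) : F.e.repr u x = 0 := by
  have h1 : ω (F.e (F.inv x)) u = 0 := by
    refine D.orth (F.cls (F.inv x)) i ?_ _ (F.mem _) u hu
    rw [F.cls_inv, D.st_st]
    exact hx.symm
  rw [← F.e.sum_repr u, map_sum, Finset.sum_eq_single x] at h1
  · rw [map_smul, smul_eq_mul] at h1
    refine (mul_eq_zero.1 h1).resolve_right ?_
    have h2 := F.ne (F.inv x)
    rwa [F.inv_inv] at h2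
  · intro y _ hy
    rw [map_smul, F.zero, smul_zero]
    rw [F.inv_inv]
    exact hy
  · intro h
    exact absurd (Finset.mem_univ _) h

include D in
open scoped Classical in
theorem card_cls {ι : Type} [Fintype ι] [DecidableEq ι] (F : FF E st ω ι)
    (i : I) : finrank K (E i) ≤ (Finset.univ.filter fun x => F.cls x = i).card := by
  have hle : E i ≤ Submodule.span K ((Finset.univ.filter fun x => F.cls x = i).image F.e : Set X) := by
    intro u hu
    rw [← F.e.sum_repr u]
    refine Submodule.sum_mem _ fun x _ => ?_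
    by_cases hx : F.cls x = i
    · refine Submodule.smul_mem _ _ (Submodule.subset_span ?_)
      rw [Finset.coe_image]
      exact ⟨x, Finset.mem_coe.2 (Finset.mem_filter.2 ⟨Finset.mem_univ _, hx⟩), rfl⟩
    · rw [repr_zero D F hu hx, zero_smul]
      exact Submodule.zero_mem _
  have hfin : FiniteDimensional K (Submodule.span K
      ((Finset.univ.filter fun x => F.cls x = i).image F.e : Set X)) :=
    FiniteDimensional.span_finset K _
  refine (Submodule.finrank_mono hle).trans ((finrank_span_finset_le_card _).trans ?_)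
  exact Finset.card_image_le

include D in
/-- The components of the form. -/
theorem om_on {ι : Type} [Fintype ι] [DecidableEq ι] (F : FF E st ω ι) [DecidableEq I]
    (i j : I) {u : X} (hu : u ∈ E j) (v : X) : F.om i u v = if j = i then ω u v else 0 := by
  unfold FF.om
  rw [LinearMap.comp_apply]
  have h1 : (F.e.constr K (fun x => if F.cls x = i then F.e x else 0) : X →ₗ[K] X) u =
      if j = i then u else 0 := by
    conv_lhs => rw [← F.e.sum_repr u]
    rw [map_sum]
    split_ifs with hji
    · conv_rhs => rw [← F.e.sum_repr u]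
      refine Finset.sum_congr rfl fun x _ => ?_
      rw [map_smul, Basis.constr_basis]
      by_cases hx : F.cls x = i
      · rw [if_pos hx]
      · rw [repr_zero D F hu (by rw [hji]; exact hx), zero_smul, zero_smul]
    · refine Finset.sum_eq_zero fun x _ => ?_
      rw [map_smul, Basis.constr_basis]
      by_cases hx : F.cls x = i
      · rw [repr_zero D F hu (by rw [hx]; exact fun h => hji h.symm), zero_smul]
      · rw [if_neg hx, smul_zero]
  convert congrArg (fun w => ω w v) h1 using 1
  · congr 2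
    refine congrArg (fun f : X →ₗ[K] X => f u) ?_
    congr 1
    funext x
    congr
  · split_ifs
    · rfl
    · rw [map_zero, LinearMap.zero_apply]

end

end

end Pool.Agent.Y128.CX
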