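import Pool.Agent.Y128.CC.Key
import Pool.Agent.W522.U.A1

/-!
# Operators which kill a set of forms
-/

set_option linter.unusedSectionVars false

namespace Pool.Agent.Y128.CX

open Module Pool.Agent.H204R3.SP Pool.Agent.H204R3.GP Pool.Agent.W529.Ta
  Pool.Agent.W522.U Pool.Agent.TH118.CR Pool.Agent.Y128.CC

noncomputable section

variable {K : Type} [Field K] [CharZero K] {X : Type} [AddCommGroup X] [Module K X]
  {Γ : Type} [Group Γ] {I : Type} {κ : Type} [Fintype κ] [DecidableEq κ]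

/-- The operators which preserve the subspaces `E i`, are skew for `ω` and kill the forms in `T`. -/
def LL (E : I → Submodule K X) (ω : X →ₗ[K] X →ₗ[K] K)
    (T : Set (MultilinearMap K (fun _ : κ => X) K)) : Submodule K (Module.End K X) where
  carrier := {Y | (∀ i, ∀ u ∈ E i, Y u ∈ E i) ∧ (∀ u v, ω (Y u) v + ω u (Y v) = 0) ∧
    ∀ ψ ∈ T, dF Y ψ = 0}
  zero_mem' := by
    refine ⟨fun i u _ => ?_, fun u v => ?_, fun ψ _ => dF_zero ψ⟩
    · rw [LinearMap.zero_apply]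
      exact Submodule.zero_mem _
    · rw [LinearMap.zero_apply, LinearMap.zero_apply, map_zero, map_zero, LinearMap.zero_apply,
        add_zero]
  add_mem' := by
    rintro Y Z ⟨h1, h2, h3⟩ ⟨g1, g2, g3⟩
    refine ⟨fun i u hu => (E i).add_mem (h1 i u hu) (g1 i u hu), fun u v => ?_, fun ψ hψ => ?_⟩
    · have e1 := h2 u v
      have e2 := g2 u v
      rw [LinearMap.add_apply, LinearMap.add_apply, map_add, map_add, LinearMap.add_apply]
      linear_combination e1 + e2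
    · rw [dF_add, h3 ψ hψ, g3 ψ hψ, add_zero]
  smul_mem' := by
    rintro c Y ⟨h1, h2, h3⟩
    refine ⟨fun i u hu => (E i).smul_mem c (h1 i u hu), fun u v => ?_, fun ψ hψ => ?_⟩
    · have e1 := h2 u v
      rw [LinearMap.smul_apply, LinearMap.smul_apply, map_smul, map_smul, LinearMap.smul_apply,
        smul_eq_mul, smul_eq_mul]
      linear_combination c * e1
    · rw [dF_smul, h3 ψ hψ, smul_zero]

/-- The data. -/
structure DD (R : Representation K Γ X) (χ : Γ →* K) (E : I → Submodule K X) (st : I → I)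
    (ω : X →ₗ[K] X →ₗ[K] K) (T : Set (MultilinearMap K (fun _ : κ => X) K)) : Prop where
  st_st : ∀ i, st (st i) = i
  st_ne : ∀ i, st i ≠ i
  Est : ∀ i g, ∀ u ∈ E i, R g u ∈ E i
  alt : ∀ u, ω u u = 0
  nd : ∀ u, (∀ v, ω u v = 0) → u = 0
  sim : ∀ g u v, ω (R g u) (R g v) = χ g * ω u v
  orth : ∀ i j, j ≠ st i → ∀ u ∈ E i, ∀ v ∈ E j, ω u v = 0
  top : (⨆ i, E i) = ⊤
  tr : ∀ h : Γ, ∀ ψ ∈ T, TT (R h) ψ ∈ T

variable {R : Representation K Γ X} {χ : Γ →* K} {E : I → Submodule K X} {st : I → I}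
  {ω : X →ₗ[K] X →ₗ[K] K} {T : Set (MultilinearMap K (fun _ : κ => X) K)}
  (D : DD R χ E st ω T)

include D in
theorem DD.skew (u v : X) : ω u v = -ω v u := by
  have h1 := D.alt (u + v)
  simp only [map_add, LinearMap.add_apply, D.alt, zero_add, add_zero] at h1
  linear_combination h1

include D in
/-- A linear map is determined by its values on the `E i`. -/
theorem DD.ext_top {W : Type} [AddCommGroup W] [Module K W] {f g : X →ₗ[K] W}
    (h : ∀ i, ∀ u ∈ E i, f u = g u) : f = g := by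
  have hle : (⨆ i, E i) ≤ LinearMap.ker (f - g) := by
    rw [iSup_le_iff]
    intro i u hu
    rw [LinearMap.mem_ker, LinearMap.sub_apply, h i u hu, sub_self]
  rw [D.top] at hle
  refine LinearMap.ext fun x => ?_
  have h1 := hle (show x ∈ ⊤ from trivial)
  rw [LinearMap.mem_ker, LinearMap.sub_apply] at h1
  exact sub_eq_zero.1 h1

include D in
theorem DD.exists_dual {i : I} {u : X} (hu : u ∈ E i) (h0 : u ≠ 0) :
    ∃ v ∈ E (st i), ω u v ≠ 0 := by
  by_contra hcon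
  push Not at hcon
  apply h0
  refine D.nd u fun v => ?_
  have h1 : ω u = 0 := D.ext_top fun j v hv => by
    by_cases hj : j = st i
    · subst hj
      exact hcon v hv
    · exact D.orth i j hj u hu v hv
  rw [h1, LinearMap.zero_apply]

include D in
theorem LL_conj (h : Γ) {Y : Module.End K X} (hY : Y ∈ LL E ω T) :
    R h * Y * R h⁻¹ ∈ LL E ω T := by
  obtain ⟨h1, h2, h3⟩ := hY
  refine ⟨fun i u hu => ?_, fun u v => ?_, fun ψ hψ => ?_⟩
  · exact D.Est i h _ (h1 i _ (D.Est i h⁻¹ u hu))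
  · have e1 := D.sim h (Y (R h⁻¹ u)) (R h⁻¹ v)
    have e2 := D.sim h (R h⁻¹ u) (Y (R h⁻¹ v))
    rw [Rinv'] at e1 e2
    change ω (R h (Y (R h⁻¹ u))) v + ω u (R h (Y (R h⁻¹ v))) = 0
    rw [e1, e2, ← mul_add, h2, mul_zero]
  · rw [CC.dF_conj, h3 _ (D.tr h ψ hψ), map_zero]

theorem LL_bracket {Y Z : Module.End K X} (hY : Y ∈ LL E ω T) (hZ : Z ∈ LL E ω T) :
    Y * Z - Z * Y ∈ LL E ω T := by
  obtain ⟨h1, h2, h3⟩ := hY
  obtain ⟨g1, g2, g3⟩ := hZ
  refine ⟨fun i u hu => (E i).sub_mem (h1 i _ (g1 i u hu)) (g1 i _ (h1 i u hu)), fun u v => ?_,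
    fun ψ hψ => ?_⟩
  · have e1 := h2 (Z u) v
    have e2 := g2 (Y u) v
    have e3 := h2 u (Z v)
    have e4 := g2 u (Y v)
    change ω (Y (Z u) - Z (Y u)) v + ω u (Y (Z v) - Z (Y v)) = 0
    rw [map_sub, map_sub, LinearMap.sub_apply]
    linear_combination e1 - e2 + e3 - e4
  · rw [dF_bracket, h3 ψ hψ, g3 ψ hψ, map_zero, map_zero, sub_zero]

theorem exists_zero2 {U : Submodule K X} (h3 : 3 ≤ finrank K U) (φ φ' : X →ₗ[K] K) :
    ∃ u ∈ U, u ≠ 0 ∧ φ u = 0 ∧ φ' u = 0 := by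
  by_contra hcon
  push Not at hcon
  have hinj : Function.Injective ((φ.prod φ').comp U.subtype) := by
    rw [injective_iff_map_eq_zero]
    intro u hu
    by_contra h0
    have h1 : φ u = 0 := congrArg Prod.fst hu
    have h2 : φ' u = 0 := congrArg Prod.snd hu
    exact hcon u u.2 (fun h => h0 (Subtype.ext h)) h1 h2
  have h4 := LinearMap.finrank_le_finrank_of_injective hinj
  rw [Module.finrank_prod, finrank_self] at h4
  omega

/-- The reflection. -/
structure RR (R : Representation K Γ X) (E : I → Submodule K X) (g : Γ) (ε : I → K) (k : ℕ) :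
    Prop where
  pos : 0 < k
  refl : ∀ j, ∃ (d : X) (φ : X →ₗ[K] K), d ∈ E j ∧ φ d = 1 ∧
    ∀ u ∈ E j, R g u = u + ((ε j - 1) * φ u) • d
  root : ∀ j, ε j ^ k = 1
  ne_one : ∀ j, ε j ≠ 1
  ne_neg : ∀ j, ε j ≠ -1
  inj : ∀ j j', ε j = ε j' → j = j'

variable {g : Γ} {ε : I → K} {k : ℕ} (hg : RR R E g ε k)

include D hg in
/-- The eigenvalues on dual subspaces are inverse. -/
theorem eps_st (i : I) (h3 : 3 ≤ finrank K (E i)) : ε i * ε (st i) = 1 ∧ χ g = 1 := by
  obtain ⟨d, φ, hd, hφ, h⟩ := hg.refl i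
  obtain ⟨d', φ', hd', hφ', h'⟩ := hg.refl (st i)
  obtain ⟨u, hu, hu0, hφu, hud'⟩ := exists_zero2 h3 φ (ω.flip d')
  obtain ⟨v, hv, huv⟩ := D.exists_dual hu hu0
  have hRu : R g u = u := by rw [h u hu, hφu, mul_zero, zero_smul, add_zero]
  have hv0 : ∀ v ∈ E (st i), v - φ' v • d' ∈ E (st i) ∧ R g (v - φ' v • d') = v - φ' v • d' := by
    intro v hv
    have h1 : v - φ' v • d' ∈ E (st i) := (E _).sub_mem hv ((E _).smul_mem _ hd')
    refine ⟨h1, ?_⟩
    have h2 : φ' (v - φ' v • d') = 0 := by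
      rw [map_sub, map_smul, hφ', smul_eq_mul, mul_one, sub_self]
    rw [h' _ h1, h2, mul_zero, zero_smul, add_zero]
  have hχ : χ g = 1 := by
    have h1 := D.sim g u (v - φ' v • d')
    rw [hRu, (hv0 v hv).2] at h1
    have h2 : ω u (v - φ' v • d') = ω u v := by
      have h4 : ω u d' = 0 := hud'
      rw [map_sub, map_smul, h4, smul_zero, sub_zero]
    rw [h2] at h1
    exact (mul_right_cancel₀ huv (by rw [one_mul]; exact h1)).symm
  refine ⟨?_, hχ⟩
  have hRd : R g d = ε i • d := by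
    rw [h d hd, hφ, mul_one]
    module
  have hRd' : R g d' = ε (st i) • d' := by
    rw [h' d' hd', hφ', mul_one]
    module
  have hd0 : d ≠ 0 := by
    rintro rfl
    rw [map_zero] at hφ
    exact zero_ne_one hφ
  obtain ⟨w, hw, hdw⟩ := D.exists_dual hd hd0
  have h1 : ω d (w - φ' w • d') = 0 := by
    have h2 := D.sim g d (w - φ' w • d')
    rw [hRd, (hv0 w hw).2, hχ, one_mul, map_smul, LinearMap.smul_apply, smul_eq_mul] at h2
    have h4 : (ε i - 1) * ω d (w - φ' w • d') = 0 := by rw [sub_mul, one_mul, h2, sub_self]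
    exact (mul_eq_zero.1 h4).resolve_left (sub_ne_zero.2 (hg.ne_one i))
  have h2 : ω d d' ≠ 0 := by
    intro h4
    apply hdw
    rw [map_sub, map_smul, h4, smul_zero, sub_zero] at h1
    exact h1
  have h4 := D.sim g d d'
  rw [hRd, hRd', hχ, one_mul, map_smul, map_smul, LinearMap.smul_apply, smul_eq_mul,
    smul_eq_mul] at h4
  exact mul_right_cancel₀ h2 (by rw [one_mul, mul_comm (ε i), mul_assoc]; exact h4)

include D hg in
/-- A nilpotent element of rank one. -/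
theorem exists_nil [IsAlgClosed K] [FiniteDimensional K X] (i : I) (h3 : 3 ≤ finrank K (E i))
    (hSI : SI R (E i)) {Δ : Subgroup Γ} (hΔ : Δ.Normal) (hfi : Δ.FiniteIndex)
    (hT : ∀ ψ ∈ T, ∀ t ∈ Δ, TT (R (g * t * g⁻¹ * t⁻¹)) ψ = ψ)
    (hF : ∃ F : Γ, ∀ N : ℕ, 0 < N → ∀ a : K, ∃ u ∈ E i, R (F ^ N) u ≠ a • u) :
    ∃ Y ∈ LL E ω T, (∀ j, j ≠ i → j ≠ st i → ∀ u ∈ E j, Y u = 0) ∧
      ∃ (w : X) (φ : X →ₗ[K] K), w ∈ E i ∧ w ≠ 0 ∧ (∃ u ∈ E i, φ u ≠ 0) ∧ φ w = 0 ∧
        ∀ u ∈ E i, Y u = φ u • w := by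
  classical
  obtain ⟨he, hχ⟩ := eps_st D hg i h3
  obtain ⟨d, φ, hd, hφ, h⟩ := hg.refl i
  obtain ⟨Y, hY1, hY2, hY3⟩ := exists_Y (c := 1) hSI (D.Est i) hd hφ
    (fun u hu => by rw [one_smul]; exact h u hu) (hg.ne_one i) hΔ hfi hF
  have hYL : Y ∈ LL E ω T := by
    refine ⟨fun j => hY1 (E j) (D.Est j), fun u v => ?_, fun ψ hψ => hY2 κ ψ (hT ψ hψ)⟩
    have h1 := hY2 (Fin 2) (bil2 ω) (fun t _ => by
      ext v
      rw [TT_apply, bil2_apply, bil2_apply, D.sim]
      have h2 : χ (g * t * g⁻¹ * t⁻¹) = 1 := by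
        have e1 : χ g * χ g⁻¹ = 1 := by rw [← map_mul, mul_inv_cancel, map_one]
        have e2 : χ t * χ t⁻¹ = 1 := by rw [← map_mul, mul_inv_cancel, map_one]
        rw [map_mul, map_mul, map_mul]
        linear_combination (χ t * χ t⁻¹) * e1 + e2
      rw [h2, one_mul])
    have h2 := congrArg (fun F : MultilinearMap K (fun _ : Fin 2 => X) K => F ![u, v]) h1
    rw [dF_apply, Fin.sum_univ_two] at h2
    simpa [bil2_apply] using h2
  have hε0 : ε i ≠ 0 := by
    intro h0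
    rw [h0, zero_mul] at he
    exact zero_ne_one he
  have hεst : ε (st i) = (ε i)⁻¹ := eq_inv_of_mul_eq_one_right he
  have hμk : ((ε i)⁻¹) ^ k = 1 := by rw [inv_pow, hg.root, inv_one]
  have hμ1 : (ε i)⁻¹ ≠ 1 := fun h => hg.ne_one i (inv_eq_one.1 h)
  have hμ0 : (ε i)⁻¹ ≠ 0 := inv_ne_zero hε0
  have hμ2 : ε i ≠ (ε i)⁻¹ := by
    intro h0
    have h1 := hg.inj i (st i) (by rw [hεst]; exact h0)
    exact D.st_ne i h1.symm
  refine ⟨avg R g k (ε i)⁻¹ Y, ?_, ?_, ?_⟩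
  · exact Submodule.sum_mem _ fun t _ => Submodule.smul_mem _ _ (LL_conj D (g ^ t) hYL)
  · intro j hji hjs u hu
    obtain ⟨d', φ', hd', hφ', h'⟩ := hg.refl j
    rw [avg_on (c := 1) hd' hφ' (fun u hu => by rw [one_smul]; exact h' u hu) (hg.root j) hμk hμ1
      hμ0 (hY1 (E j) (D.Est j)) hu, if_neg, if_neg, zero_mul, zero_mul, zero_smul, zero_smul,
      add_zero]
    · intro h0
      exact hjs (hg.inj j (st i) (by rw [hεst]; exact h0))
    · intro h0
      exact hji (hg.inj j i (inv_injective h0))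
  · have hkK : (k : K) ≠ 0 := Nat.cast_ne_zero.2 hg.pos.ne'
    refine ⟨Y d - φ (Y d) • d, (k : K) • φ, (E i).sub_mem (hY1 _ (D.Est i) d hd)
      ((E i).smul_mem _ hd), hY3, ⟨d, hd, ?_⟩, ?_, fun u hu => ?_⟩
    · rw [LinearMap.smul_apply, hφ, smul_eq_mul, mul_one]
      exact hkK
    · rw [LinearMap.smul_apply, map_sub, map_smul, hφ, smul_eq_mul, smul_eq_mul, mul_one, sub_self,
        mul_zero]
    · rw [avg_on (c := 1) hd hφ (fun u hu => by rw [one_smul]; exact h u hu) (hg.root i) hμk hμ1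
        hμ0 (hY1 (E i) (D.Est i)) hu, if_pos rfl, if_neg hμ2, zero_mul, zero_smul, add_zero,
        LinearMap.smul_apply, smul_eq_mul]

end

end Pool.Agent.Y128.CX
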