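import Pool.Agent.Y128.CX.Core

/-!
# The slices are combinations of products of graph forms
-/

set_option linter.unusedSectionVars false

namespace Pool.Agent.Y128.CX

open Module TensorProduct Polynomial Pool.Agent.H204R3.SP Pool.Agent.H204R3.GP Pool.Agent.H204R3.CM
  Pool.Agent.W529.Ta Pool.Agent.W522.U Pool.Agent.TH118.CR Pool.Agent.Y128.CC Pool.Agent.Y128.SJ

noncomputable section

section

variable {K : Type} [Field K] [CharZero K] {X : Type} [AddCommGroup X] [Module K X]
  [FiniteDimensional K X] {p : ℕ} [hp : Fact p.Prime] {S : Module.End K X}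
  (hS : ∑ i ∈ Finset.range p, S ^ i = 0) {z₀ : K} (hz₀ : IsPrimitiveRoot z₀ p)
  {Γ : Type} [Group Γ] {R : Representation K Γ X} {χ : Γ →* K}
  {κ : Type} [Fintype κ] [DecidableEq κ] {ω : X →ₗ[K] X →ₗ[K] K} {Θ : Module.End K X} {d : (ZMod p)ˣ → K}
  (hΘ : ∀ j : (ZMod p)ˣ, ∀ u ∈ EE S z₀ j, Θ u = d j • u)
  {T : Set (MultilinearMap K (fun _ : κ => X) K)}
  (D : DD R χ (fun j : (ZMod p)ˣ => EE S z₀ j) (fun j => -j) (ω.comp Θ) T)

include hS hz₀ hΘ D in
/-- The components of the form are combinations of the graph forms. -/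
theorem om_poly {ι : Type} [Fintype ι] [DecidableEq ι]
    (F : FF (fun j : (ZMod p)ˣ => EE S z₀ j) (fun j => -j) (ω.comp Θ) ι) (i : (ZMod p)ˣ) :
    ∃ a : Fin p → K, ∀ u v, F.om i u v = ∑ l, a l * ω ((S ^ (l : ℕ)) u) v := by
  classical
  let P : Polynomial K := Lagrange.interpolate Finset.univ (fun j : (ZMod p)ˣ => ev z₀ j)
    (fun j => if j = i then d j else 0)
  have hP : ∀ j, P.eval (ev z₀ j) = if j = i then d j else 0 := fun j =>
    Lagrange.eval_interpolate_at_node (v := fun j : (ZMod p)ˣ => ev z₀ j) _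
      (ev_injective hz₀).injOn (Finset.mem_univ j)
  let Q : Module.End K X := aeval S P
  have hQ : ∀ j, ∀ u ∈ EE S z₀ j, Q u = (if j = i then d j else 0) • u := by
    intro j u hu
    change aeval S P u = _
    rw [aeval_eig hu, hP]
  have hom : F.om i = ω.comp Q := D.ext_top fun j u hu => by
    refine LinearMap.ext fun v => ?_
    rw [om_on D F i j hu v]
    change (if j = i then ω (Θ u) v else 0) = ω (Q u) v
    rw [hQ j u hu, hΘ j u hu]
    split_ifs
    · rfl
    · rw [zero_smul, map_zero, LinearMap.zero_apply]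
  obtain ⟨a, ha⟩ := eq_poly hS hz₀ hQ
  refine ⟨a, fun u v => ?_⟩
  rw [hom, ha, LinearMap.comp_apply, LinearMap.sum_apply, map_sum, LinearMap.sum_apply]
  refine Finset.sum_congr rfl fun l _ => ?_
  rw [LinearMap.smul_apply, map_smul, LinearMap.smul_apply, smul_eq_mul]

end

section

variable {p N r : ℕ} [hp : Fact p.Prime] {k V M Γ : Type} [Field k] [CharZero k] [AddCommGroup V]
  [Module k V] [FiniteDimensional k V] [AddCommGroup M] [Module k M] [Group Γ]
  {ρ : Representation k Γ V} {χ : Γ →* k} {ω : V →ₗ[k] V →ₗ[k] k} {σ : Module.End k V}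
  {τ : Representation k Γ M}

/-- Balanced forms are combinations of products of graph forms. -/
theorem slice_mem (h : CyclicModule p N r ρ χ ω σ)
    {z₀ : AlgebraicClosure k} (hz₀ : IsPrimitiveRoot z₀ p) {ν : Type} [Fintype ν] [DecidableEq ν]
    (b : Basis ν k V) {n : ℕ} (φ : MultilinearMap k (fun _ : Fin n => V) k)
    {Θ : Module.End (AlgebraicClosure k) (AlgebraicClosure k ⊗[k] V)}
    {d : (ZMod p)ˣ → AlgebraicClosure k}
    (hΘ : ∀ j : (ZMod p)ˣ, ∀ u ∈ EE (σ.baseChange (AlgebraicClosure k)) z₀ j, Θ u = d j • u)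
    {T : Set (MultilinearMap (AlgebraicClosure k) (fun _ : Fin n => AlgebraicClosure k ⊗[k] V)
      (AlgebraicClosure k))}
    (D : DD (bcr ρ (AlgebraicClosure k)) (bcc (χ ^ N) (AlgebraicClosure k))
        (fun j : (ZMod p)ˣ => EE (σ.baseChange (AlgebraicClosure k)) z₀ j) (fun j => -j)
        ((bcb (AlgebraicClosure k) ω).comp Θ) T)
    {ι : Type} [Fintype ι] [DecidableEq ι]
    (F : FF (fun j : (ZMod p)ˣ => EE (σ.baseChange (AlgebraicClosure k)) z₀ j) (fun j => -j)
        ((bcb (AlgebraicClosure k) ω).comp Θ) ι)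
    (hk : ∀ (i : (ZMod p)ˣ) (u w : AlgebraicClosure k ⊗[k] V),
        u ∈ EE (σ.baseChange (AlgebraicClosure k)) z₀ i →
        w ∈ EE (σ.baseChange (AlgebraicClosure k)) z₀ (-i) →
        (bcb (AlgebraicClosure k) ω).comp Θ u w = 0 →
        dF (sk ((bcb (AlgebraicClosure k) ω).comp Θ) u w) (bcm b φ) = 0)
    (hb : ∀ J : Fin n → ι, bcm (Ω := AlgebraicClosure k) b φ (fun l => F.e (J l)) ≠ 0 →
      ∀ x, FF.cnt J x = FF.cnt J (F.inv x)) :
    φ ∈ Submodule.span k (graphProducts ω σ n) := by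
  classical
  have h1 := F.fft (bcm b φ) hk hb
  have hcyc := bc_cyc (AlgebraicClosure k) h.cyclic.cyc
  have h2 : Submodule.span (AlgebraicClosure k) (F.PP (Fin n)) ≤
      Submodule.span (AlgebraicClosure k) ((fun φ => bcm (Ω := AlgebraicClosure k) b φ) ''
        (Submodule.span k (graphProducts ω σ n) : Set _)) := by
    rw [Submodule.span_le]
    rintro _ ⟨m, e, c, rfl⟩
    exact prod_expand b ω σ (p := p) e (fun l => F.om (c l)) fun l =>
      om_poly hcyc hz₀ hΘ D F (c l)
  obtain ⟨π, hπ⟩ := (Algebra.linearMap k (AlgebraicClosure k)).exists_leftInverse_of_injective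
    (LinearMap.ker_eq_bot.2 (FaithfulSMul.algebraMap_injective k (AlgebraicClosure k)))
  have hπ1 : π 1 = 1 := by
    have h1 := LinearMap.congr_fun hπ (1 : k)
    rwa [LinearMap.comp_apply, Algebra.linearMap_apply, map_one, LinearMap.id_apply] at h1
  have h3 := desc_mem b _ _ (h2 h1) π
  rwa [desc_bcm, hπ1, one_smul] at h3

end

end

end Pool.Agent.Y128.CX
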