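import Pool.Agent.Y128.CX.Theta
import Pool.Agent.Y128.CX.Defs
import Pool.Agent.Y128.CC.Fin

/-!
# The slices of a Tate class with values
-/

set_option linter.unusedSectionVars false

namespace Pool.Agent.Y128.CX

open Module TensorProduct Polynomial Pool.Agent.H204R3.SP Pool.Agent.H204R3.GP Pool.Agent.H204R3.CM
  Pool.Agent.W529.Ta Pool.Agent.W522.U Pool.Agent.TH118.CR Pool.Agent.Y128.CC Pool.Agent.Y128.SJ

noncomputable section

section poly

variable {k K : Type} [Field k] [Field K] [Algebra k K] {V : Type} [AddCommGroup V] [Module k V]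
  {ν : Type} [Fintype ν] [DecidableEq ν] (b : Basis ν k V) {Γ : Type} [Group Γ]
  {ρ : Representation k Γ V} {M : Type} [AddCommGroup M] [Module k M]
  {τ : Representation k Γ M} {κ : Type} [Fintype κ] [DecidableEq κ]

theorem TT_slice {f : MultilinearMap k (fun _ : κ => V) M} {s : Γ}
    (hs : ∀ v : κ → V, f (fun l => ρ s (v l)) = τ s (f v)) (μ : Dual k M) :
    TT (bcr ρ K s) (bcm b (μ.compMultilinearMap f)) =
      bcm b ((μ.comp (τ s)).compMultilinearMap f) := by
  rw [bcm_TT]
  congr 1
  ext v
  change μ (f (fun l => ρ s (v l))) = μ (τ s (f v))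
  rw [hs]

/-- Polynomials in the action on the slices. -/
theorem aeval_slice {f : MultilinearMap k (fun _ : κ => V) M} {s : Γ}
    (hs : ∀ v : κ → V, f (fun l => ρ s (v l)) = τ s (f v)) (Q : k[X]) (μ : Dual k M) :
    aeval (TT (bcr ρ K s) : Module.End K (MultilinearMap K (fun _ : κ => K ⊗[k] V) K))
      (Q.map (algebraMap k K)) (bcm b (μ.compMultilinearMap f)) =
      bcm b ((μ.comp (aeval (τ s) Q)).compMultilinearMap f) := by
  have hpow : ∀ (j : ℕ) (μ : Dual k M),
      ((TT (bcr ρ K s) : Module.End K (MultilinearMap K (fun _ : κ => K ⊗[k] V) K)) ^ j)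
        (bcm b (μ.compMultilinearMap f)) =
      bcm b ((μ.comp ((τ s) ^ j)).compMultilinearMap f) := by
    intro j
    induction j with
    | zero =>
      intro μ
      rw [pow_zero, pow_zero]
      rfl
    | succ j ih =>
      intro μ
      rw [pow_succ, Module.End.mul_apply, TT_slice b hs, ih, pow_succ']
      rfl
  induction Q using Polynomial.induction_on' with
  | add P Q hP hQ =>
    rw [Polynomial.map_add, map_add, LinearMap.add_apply, hP, hQ, map_add]
    have h1 : bcm (Ω := K) b ((μ.comp (aeval (τ s) P + aeval (τ s) Q)).compMultilinearMap f) =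
        bcmL b ((μ.comp (aeval (τ s) P)).compMultilinearMap f +
          (μ.comp (aeval (τ s) Q)).compMultilinearMap f) := by
      change bcm b _ = bcm b _
      congr 1
      ext v
      exact map_add μ _ _
    rw [h1, map_add]
    rfl
  | monomial j a =>
    rw [Polynomial.map_monomial, aeval_monomial, aeval_monomial, Module.End.mul_apply, hpow]
    have h1 : bcm (Ω := K) b ((μ.comp (algebraMap k (Module.End k M) a * (τ s) ^ j)).compMultilinearMap
        f) = bcmL b (a • (μ.comp ((τ s) ^ j)).compMultilinearMap f) := by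
      change bcm b _ = bcm b _
      congr 1
      ext v
      exact map_smul μ a _
    rw [h1, map_smul]
    refine MultilinearMap.ext fun v => ?_
    exact (Algebra.smul_def a _).symm

end poly

section expand

variable {k K : Type} [Field k] [Field K] [CharZero K] [Algebra k K] {V : Type} [AddCommGroup V]
  [Module k V] [CharZero k] [FiniteDimensional k V] {ν : Type} [Fintype ν] [DecidableEq ν]
  (b : Basis ν k V) {n : ℕ}

theorem bcm_prodMap {m : ℕ} (e : Fin m × Fin 2 ≃ Fin n) (B : Fin m → (V →ₗ[k] V →ₗ[k] k)) :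
    bcm (Ω := K) b ((prodMap (fun l => bil2 (B l))).domDomCongr e) =
      (prodMap (fun l => bil2 (bcb K (B l)))).domDomCongr e := by
  refine Basis.ext_multilinear (fun _ => b.baseChange K) fun I => ?_
  rw [bcm_basis, MultilinearMap.domDomCongr_apply, MultilinearMap.domDomCongr_apply,
    prodMap_apply, prodMap_apply, map_prod]
  refine Finset.prod_congr rfl fun l _ => ?_
  rw [bil2_apply, bil2_apply, Basis.baseChange_apply, Basis.baseChange_apply, bcb_one]

/-- Products of forms `∑ a i * ω (σ ^ i u, v)`. -/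
theorem prod_expand (ω : V →ₗ[k] V →ₗ[k] k) (σ : Module.End k V) {p m : ℕ}
    (e : Fin m × Fin 2 ≃ Fin n) (B : Fin m → ((K ⊗[k] V) →ₗ[K] (K ⊗[k] V) →ₗ[K] K))
    (hB : ∀ l, ∃ a : Fin p → K, ∀ u v,
      B l u v = ∑ i, a i * bcb K ω (((σ.baseChange K) ^ (i : ℕ)) u) v) :
    (prodMap (fun l => bil2 (B l))).domDomCongr e ∈ Submodule.span K
      ((fun φ => bcm (Ω := K) b φ) '' (Submodule.span k (graphProducts ω σ n) : Set _)) := by
  classical
  choose a ha using hB
  have h1 : (prodMap (fun l => bil2 (B l))).domDomCongr e = ∑ i : Fin m → Fin p,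
      (∏ l, a l (i l)) • bcm (Ω := K) b
        ((prodMap (fun l => bil2 (ω.comp (σ ^ (i l : ℕ))))).domDomCongr e) := by
    refine MultilinearMap.ext fun v => ?_
    rw [MultilinearMap.domDomCongr_apply, prodMap_apply, MultilinearMap.sum_apply]
    simp only [bil2_apply, ha]
    rw [Finset.prod_univ_sum, Fintype.piFinset_univ]
    refine Finset.sum_congr rfl fun i _ => ?_
    rw [MultilinearMap.smul_apply, bcm_prodMap, MultilinearMap.domDomCongr_apply, prodMap_apply,
      smul_eq_mul, Finset.prod_mul_distrib]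
    congr 1
    refine Finset.prod_congr rfl fun l _ => ?_
    rw [bil2_apply, bcb_comp]
    congr 2
    rw [← bc_pow]
  rw [h1]
  refine Submodule.sum_mem _ fun i _ => Submodule.smul_mem _ _ (Submodule.subset_span
    ⟨_, Submodule.subset_span ⟨m, e, fun l => (i l : ℕ), fun v => ?_⟩, rfl⟩)
  rw [MultilinearMap.domDomCongr_apply, prodMap_apply]
  rfl

end expand

end

end Pool.Agent.Y128.CX
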