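import Pool.Agent.Y128.CX.Frame

/-!
# The alternating form attached to a symmetric or alternating form and an automorphism
-/

set_option linter.unusedSectionVars false

namespace Pool.Agent.Y128.CX

open Module Polynomial Pool.Agent.H204R3.SP Pool.Agent.H204R3.GP Pool.Agent.H204R3.CM
  Pool.Agent.W529.Ta Pool.Agent.W522.U Pool.Agent.TH118.CR Pool.Agent.Y128.CC Pool.Agent.Y128.SJ

noncomputable section

section

variable {K : Type} [Field K] {p : ℕ} [hp : Fact p.Prime]

/-- The sign of an eigenspace. -/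
def cc (s : K) (j : (ZMod p)ˣ) : K :=
  if (j : ZMod p).val < ((-j : (ZMod p)ˣ) : ZMod p).val then 1 else -s

theorem neg_ne (hp2 : p ≠ 2) (j : (ZMod p)ˣ) : -j ≠ j := by
  intro h0
  have h1 : ((-j : (ZMod p)ˣ) : ZMod p) = (j : ZMod p) := by rw [h0]
  rw [Units.val_neg] at h1
  have h2 : (2 : ZMod p) * j = 0 := by linear_combination -h1
  have h3 : (2 : ZMod p) = 0 := by
    rcases mul_eq_zero.1 h2 with h4 | h4
    · exact h4
    · exact absurd h4 j.ne_zero
  have h4 : ((2 : ℕ) : ZMod p) = 0 := by exact_mod_cast h3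
  rw [ZMod.natCast_eq_zero_iff] at h4
  exact hp2 ((Nat.prime_dvd_prime_iff_eq hp.out Nat.prime_two).1 h4)

theorem val_ne (hp2 : p ≠ 2) (j : (ZMod p)ˣ) :
    (j : ZMod p).val ≠ ((-j : (ZMod p)ˣ) : ZMod p).val := by
  intro h0
  exact neg_ne hp2 j (Units.ext (ZMod.val_injective p h0.symm))

theorem cc_neg (hp2 : p ≠ 2) {s : K} (hs : s * s = 1) (j : (ZMod p)ˣ) :
    cc s (-j) * s = -cc s j := by
  unfold cc
  rw [neg_neg]
  rcases lt_or_gt_of_ne (val_ne hp2 j) with h1 | h1
  · rw [if_pos h1, if_neg (not_lt.2 h1.le)]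
    linear_combination -hs
  · rw [if_neg (not_lt.2 h1.le), if_pos h1]
    ring

theorem cc_sq {s : K} (hs : s * s = 1) (j : (ZMod p)ˣ) : cc s j * cc s j = 1 := by
  unfold cc
  split_ifs
  · ring
  · linear_combination hs

end

section

variable {K : Type} [Field K] [CharZero K] {X : Type} [AddCommGroup X] [Module K X]
  [FiniteDimensional K X] {p : ℕ} [hp : Fact p.Prime] {S : Module.End K X}
  (hS : ∑ i ∈ Finset.range p, S ^ i = 0) {z₀ : K} (hz₀ : IsPrimitiveRoot z₀ p)
  {Γ : Type} [Group Γ] {R : Representation K Γ X} {χ : Γ →* K}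
  (hRS : ∀ s, R s * S = S * R s)

include hS hz₀ in
theorem exists_Th (s : K) : ∃ Θ : Module.End K X, Θ ∈ Algebra.adjoin K {S} ∧
    ∀ j : (ZMod p)ˣ, ∀ u ∈ Module.End.eigenspace S (ev z₀ j), Θ u = cc s j • u := by
  classical
  let P : Polynomial K := Lagrange.interpolate Finset.univ (fun j : (ZMod p)ˣ => ev z₀ j) (cc s)
  refine ⟨aeval S P, aeval_mem_adjoin_singleton K S, fun j u hu => ?_⟩
  rw [aeval_eig hu]
  congr 1
  exact Lagrange.eval_interpolate_at_node (v := fun j : (ZMod p)ˣ => ev z₀ j) (cc s)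
      (ev_injective hz₀).injOn (Finset.mem_univ j)

theorem comm_adjoin {A B : Module.End K X} (h : A * S = S * A) (hB : B ∈ Algebra.adjoin K {S}) :
    A * B = B * A := by
  have h1 : B ∈ Subalgebra.centralizer K {A} := by
    refine Algebra.adjoin_le ?_ hB
    rintro _ rfl
    rw [SetLike.mem_coe, Subalgebra.mem_centralizer_iff]
    rintro _ rfl
    exact h
  exact (Subalgebra.mem_centralizer_iff K).1 h1 A rfl

/-- The eigenspaces. -/
abbrev EE (S : Module.End K X) (z₀ : K) (j : (ZMod p)ˣ) : Submodule K X :=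
  Module.End.eigenspace S (ev z₀ j)

include hS hz₀ hRS in
/-- The alternating form. -/
theorem mkDD {κ : Type} [Fintype κ] [DecidableEq κ] (hp2 : p ≠ 2)
    (ω : X →ₗ[K] X →ₗ[K] K) (hnd : ∀ u, (∀ v, ω u v = 0) → u = 0)
    {s : K} (hs : s * s = 1) (hsym : ∀ u v, ω v u = s * ω u v)
    (hisom : ∀ u v, ω (S u) (S v) = ω u v) (hsim : ∀ g u v, ω (R g u) (R g v) = χ g * ω u v)
    {Θ : Module.End K X} (hΘ : Θ ∈ Algebra.adjoin K {S})
    (hΘ' : ∀ j : (ZMod p)ˣ, ∀ u ∈ EE S z₀ j, Θ u = cc s j • u)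
    (T : Set (MultilinearMap K (fun _ : κ => X) K)) (hT : ∀ h : Γ, ∀ ψ ∈ T, TT (R h) ψ ∈ T) :
    DD R χ (fun j : (ZMod p)ˣ => EE S z₀ j) (fun j => -j) (ω.comp Θ) T := by
  have htop : ⨆ j : (ZMod p)ˣ, EE S z₀ j = ⊤ := iSup_eig hS hz₀
  have hext : ∀ {W : Type} [AddCommGroup W] [Module K W] {f g : X →ₗ[K] W},
      (∀ j : (ZMod p)ˣ, ∀ u ∈ EE S z₀ j, f u = g u) → f = g := by
    intro W _ _ f g h
    have hle : (⨆ i : (ZMod p)ˣ, EE S z₀ i) ≤ LinearMap.ker (f - g) := by
      rw [iSup_le_iff]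
      intro i u hu
      rw [LinearMap.mem_ker, LinearMap.sub_apply, h i u hu, sub_self]
    rw [htop] at hle
    refine LinearMap.ext fun x => ?_
    have h1 := hle (show x ∈ ⊤ from trivial)
    rw [LinearMap.mem_ker, LinearMap.sub_apply] at h1
    exact sub_eq_zero.1 h1
  have horth0 : ∀ i j : (ZMod p)ˣ, j ≠ -i → ∀ u ∈ EE S z₀ i, ∀ v ∈ EE S z₀ j, ω u v = 0 := by
    intro i j hij u hu v hv
    have h1 := hisom u v
    rw [Module.End.mem_eigenspace_iff.1 hu, Module.End.mem_eigenspace_iff.1 hv, map_smul,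
      map_smul, LinearMap.smul_apply, smul_eq_mul, smul_eq_mul, ← mul_assoc, mul_comm (ev z₀ j)]
      at h1
    have h2 : (ev z₀ i * ev z₀ j - 1) * ω u v = 0 := by
      rw [sub_mul, one_mul, h1, sub_self]
    refine (mul_eq_zero.1 h2).resolve_left (sub_ne_zero.2 fun h3 => hij (ev_dual hz₀ h3))
  have hΘΘ : Θ * Θ = 1 := hext fun j u hu => by
    rw [Module.End.mul_apply, hΘ' j u hu, map_smul, hΘ' j u hu, smul_smul, cc_sq hs, one_smul]
    rfl
  have hskew : ∀ u v, ω (Θ u) v = -ω (Θ v) u := by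
    have h1 : ω.comp Θ = -(ω.comp Θ).flip := hext fun i u hu => hext fun j v hv => by
      rw [LinearMap.comp_apply, LinearMap.neg_apply, LinearMap.neg_apply, LinearMap.flip_apply,
        LinearMap.comp_apply, hΘ' i u hu, hΘ' j v hv, map_smul, map_smul, LinearMap.smul_apply,
        LinearMap.smul_apply, smul_eq_mul, smul_eq_mul, hsym u v]
      by_cases hij : j = -i
      · subst hij
        have h2 := cc_neg hp2 hs i
        linear_combination (ω u v) * h2
      · rw [horth0 i j hij u hu v hv]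
        ring
    intro u v
    exact congrArg (fun B : X →ₗ[K] X →ₗ[K] K => B u v) h1
  refine ⟨fun i => neg_neg i, fun i => neg_ne hp2 i, fun i g u hu => ?_, fun u => ?_, fun u hu => ?_,
    fun g u v => ?_, fun i j hij u hu v hv => ?_, htop, hT⟩
  · rw [Module.End.mem_eigenspace_iff] at hu ⊢
    have h2 := congrArg (fun f : Module.End K X => f u) (hRS g)
    change R g (S u) = S (R g u) at h2
    rw [← h2, hu, map_smul]
  · have h1 := hskew u u
    have h2 : (2 : K) * ω (Θ u) u = 0 := by linear_combination h1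
    exact (mul_eq_zero.1 h2).resolve_left two_ne_zero
  · have h1 : Θ u = 0 := hnd _ hu
    have h2 : Θ (Θ u) = u := congrArg (fun f : Module.End K X => f u) hΘΘ
    rw [← h2, h1, map_zero]
  · have h1 : R g (Θ u) = Θ (R g u) :=
      congrArg (fun f : Module.End K X => f u) (comm_adjoin (hRS g) hΘ)
    change ω (Θ (R g u)) (R g v) = χ g * ω (Θ u) v
    rw [← h1, hsim]
  · rw [LinearMap.comp_apply, hΘ' i u hu, map_smul, LinearMap.smul_apply,
      horth0 i j hij u hu v hv, smul_zero]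

end

end

end Pool.Agent.Y128.CX
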